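import Pool.Agent.W974.Aim10

set_option autoImplicit false
set_option linter.unusedSectionVars false

namespace Pool.Agent.W974.Aim

open Lp

section quot
variable (Q : Type) [Lp Q]

/-- equality modulo the centre. -/
def ZS : Setoid Q where
  r x y := ∃ m : MZ Q, x = act m y
  iseqv := by
    refine ⟨fun x => ⟨0, rfl⟩, ?_, ?_⟩
    · rintro x y ⟨m, rfl⟩
      exact ⟨-m, by rw [act_neg_act]⟩
    · rintro x y z ⟨m, rfl⟩ ⟨m', rfl⟩
      exact ⟨m + m', rfl⟩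

/-- the quotient by the centre. -/
def QZ : Type := Quotient (ZS Q)

variable {Q}

lemma ld_act (m m' : MZ Q) (a b : Q) : ld (act m a) (act m' b) = act (m' - m) (ld a b) := by
  apply lcancel (a := act m a)
  rw [mul_ld, mul_act, act_mul, mul_ld, ← act_add]
  congr 1; abel

lemma rd_act (m m' : MZ Q) (a b : Q) : rd (act m b) (act m' a) = act (m - m') (rd b a) := by
  apply rcancel (a := act m' a)
  rw [rd_mul, mul_act, act_mul, rd_mul, ← act_add]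
  congr 1; abel

instance : Lp (QZ Q) where
  mul := Quotient.map₂ (fun a b => a * b) (by
    rintro a a' ⟨m, rfl⟩ b b' ⟨m', rfl⟩
    exact ⟨m' + m, by rw [mul_act, act_mul, act_add]⟩)
  one := Quotient.mk _ 1
  ld := Quotient.map₂ (fun a b => ld a b) (by
    rintro a a' ⟨m, rfl⟩ b b' ⟨m', rfl⟩
    exact ⟨m' - m, ld_act _ _ _ _⟩)
  rd := Quotient.map₂ (fun a b => rd a b) (by
    rintro a a' ⟨m, rfl⟩ b b' ⟨m', rfl⟩
    exact ⟨m - m', rd_act _ _ _ _⟩)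
  one_mul' := by
    rintro ⟨x⟩
    exact congrArg (Quotient.mk _) (o1 x)
  mul_one' := by
    rintro ⟨x⟩
    exact congrArg (Quotient.mk _) (o2 x)
  mul_ld := by
    rintro ⟨a⟩ ⟨b⟩
    exact congrArg (Quotient.mk _) (mul_ld a b)
  ld_mul := by
    rintro ⟨a⟩ ⟨b⟩
    exact congrArg (Quotient.mk _) (ld_mul a b)
  rd_mul := by
    rintro ⟨a⟩ ⟨b⟩
    exact congrArg (Quotient.mk _) (rd_mul a b)
  mul_rd := by
    rintro ⟨a⟩ ⟨b⟩
    exact congrArg (Quotient.mk _) (mul_rd a b)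

/-- quotient map. -/
def qm (x : Q) : QZ Q := Quotient.mk (ZS Q) x

lemma Ex_QZ : Ex (qm (Q := Q)) where
  mul := fun _ _ => rfl
  sur := Quotient.mk_surjective
  ker := fun _ _ => Quotient.eq

end quot

section ab
variable {Q P : Type} [Lp Q] [Lp P] {π : Q → P}

lemma Lf_surj (hπ : Ex π) {g' : Equiv.Perm P} (hg : g' ∈ MG P) : ∃ g ∈ MG Q, Lf π g g' := by
  unfold MG at hg
  induction hg using Subgroup.closure_induction with
  | mem g hg =>
    rcases hg with ⟨a, rfl⟩ | ⟨a, rfl⟩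
    · obtain ⟨a, rfl⟩ := hπ.sur a
      exact ⟨_, L_mem _, Lf_L hπ a⟩
    · obtain ⟨a, rfl⟩ := hπ.sur a
      exact ⟨_, R_mem _, Lf_R hπ a⟩
  | one => exact ⟨1, one_mem _, Lf_one⟩
  | mul a b _ _ ha hb =>
    obtain ⟨a', ha', h1⟩ := ha
    obtain ⟨b', hb', h2⟩ := hb
    exact ⟨_, mul_mem ha' hb', Lf_mul h1 h2⟩
  | inv a _ ha =>
    obtain ⟨a', ha', h1⟩ := ha
    exact ⟨_, inv_mem ha', Lf_inv h1⟩

lemma AB_quot (hπ : Ex π) (hA : AB Q) : AB P := by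
  intro x g g' hg hg' h h'
  obtain ⟨x, rfl⟩ := hπ.sur x
  obtain ⟨k, hk, e⟩ := Lf_surj hπ hg
  obtain ⟨k', hk', e'⟩ := Lf_surj hπ hg'
  rw [← e] at h
  rw [← e'] at h'
  obtain ⟨m, hm⟩ := (hπ.ker _ _).mp h
  obtain ⟨m', hm'⟩ := (hπ.ker _ _).mp h'
  have hc := (Additive.toMul m : ZM Q).2
  have hc' := (Additive.toMul m' : ZM Q).2
  have h1 : ((((Additive.toMul m : ZM Q) : Equiv.Perm Q))⁻¹ * k) x = x := by
    rw [Equiv.Perm.mul_apply, hm, Equiv.Perm.inv_eq_iff_eq]; rfl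
  have key := fact3 hA hk' hc' hm' (mul_mem (inv_mem hc.1) hk) h1
  have h2 : k' * k = k * k' := by
    have h3 : ∀ y ∈ MG Q, y * ((Additive.toMul m : ZM Q) : Equiv.Perm Q)⁻¹ =
        ((Additive.toMul m : ZM Q) : Equiv.Perm Q)⁻¹ * y := (inv_mem hc).2
    rw [← mul_assoc, h3 k' hk', mul_assoc, mul_assoc] at key
    exact mul_left_cancel key
  have e1 := Lf_mul e' e
  have e2 := Lf_mul e e'
  rw [h2] at e1
  exact Lf_uniq hπ e2 e1

end ab

section gen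
variable (Q : Type) [Lp Q]

/-- standard generators of the inner mapping group. -/
def Gs : Set (Equiv.Perm Q) :=
  {f | (∃ x y, f = LL x y) ∨ (∃ x y, f = RR x y) ∨ (∃ x, f = TT x)}

variable {Q}

lemma Gs_Hs {g : Equiv.Perm Q} (hg : g ∈ Subgroup.closure (Gs Q)) : g ∈ Hs Q := by
  have : Subgroup.closure (Gs Q) ≤ Hs Q := by
    rw [Subgroup.closure_le]
    rintro f (⟨x, y, rfl⟩ | ⟨x, y, rfl⟩ | ⟨x, rfl⟩)
    · exact LL_mem _ _
    · exact RR_mem _ _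
    · exact TT_mem _
  exact this hg

lemma RL_dec (b a : Q) : R b * L a = L (a * b) * ((TT (a * b))⁻¹ * RR a b * TT a) := by
  unfold TT RR; group

lemma MG_dec {g : Equiv.Perm Q} (hg : g ∈ MG Q) :
    ∃ a, ∃ h ∈ Subgroup.closure (Gs Q), g = L a * h := by
  have mL : ∀ a b : Q, LL a b ∈ Subgroup.closure (Gs Q) := fun a b =>
    Subgroup.subset_closure (Or.inl ⟨a, b, rfl⟩)
  have mR : ∀ a b : Q, RR a b ∈ Subgroup.closure (Gs Q) := fun a b =>
    Subgroup.subset_closure (Or.inr (Or.inl ⟨a, b, rfl⟩))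
  have mT : ∀ a : Q, TT a ∈ Subgroup.closure (Gs Q) := fun a =>
    Subgroup.subset_closure (Or.inr (Or.inr ⟨a, rfl⟩))
  have mW : ∀ a b : Q, (TT (a * b))⁻¹ * RR a b * TT a ∈ Subgroup.closure (Gs Q) := fun a b =>
    mul_mem (mul_mem (inv_mem (mT _)) (mR _ _)) (mT _)
  unfold MG at hg
  induction hg using Subgroup.closure_induction_left with
  | one => exact ⟨1, 1, one_mem _, by rw [L_one]; simp⟩
  | mul_left x hx y hy ih =>
    obtain ⟨a, h, hh, rfl⟩ := ih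
    rcases hx with ⟨b, rfl⟩ | ⟨b, rfl⟩
    · refine ⟨b * a, LL b a * h, mul_mem (mL _ _) hh, ?_⟩
      unfold LL; group
    · refine ⟨a * b, _, mul_mem (mW a b) hh, ?_⟩
      rw [← mul_assoc, RL_dec, mul_assoc]
  | inv_mul_cancel x hx y hy ih =>
    obtain ⟨a, h, hh, rfl⟩ := ih
    rcases hx with ⟨b, rfl⟩ | ⟨b, rfl⟩
    · refine ⟨ld b a, (LL b (ld b a))⁻¹ * h, mul_mem (inv_mem (mL _ _)) hh, ?_⟩
      have : L (b * ld b a) = L a := by rw [mul_ld]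
      unfold LL
      rw [this]; group
    · refine ⟨rd a b, _, mul_mem (inv_mem (mW (rd a b) b)) hh, ?_⟩
      have h1 := RL_dec b (rd a b)
      rw [rd_mul] at h1
      rw [rd_mul, ← mul_assoc, ← mul_assoc]
      congr 1
      rw [inv_mul_eq_iff_eq_mul, ← mul_assoc, h1]
      group

lemma AB_of (h : ∀ f ∈ Gs Q, ∀ g ∈ Gs Q, f * g = g * f) : AB Q := by
  have h1 : ∀ f ∈ Gs Q, ∀ g ∈ Subgroup.closure (Gs Q), f * g = g * f := by
    intro f hf g hg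
    have : Subgroup.closure (Gs Q) ≤ Subgroup.centralizer {f} := by
      rw [Subgroup.closure_le]
      intro k hk
      show k ∈ Subgroup.centralizer {f}
      rw [Subgroup.mem_centralizer_iff]
      rintro _ rfl
      exact h _ hf _ hk
    have h2 := this hg
    rw [Subgroup.mem_centralizer_iff] at h2
    exact h2 f rfl
  have h2 : ∀ f ∈ Subgroup.closure (Gs Q), ∀ g ∈ Subgroup.closure (Gs Q), f * g = g * f := by
    intro f hf g hg
    have : Subgroup.closure (Gs Q) ≤ Subgroup.centralizer {g} := by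
      rw [Subgroup.closure_le]
      intro k hk
      show k ∈ Subgroup.centralizer {g}
      rw [Subgroup.mem_centralizer_iff]
      rintro _ rfl
      exact (h1 _ hk _ hg).symm
    have h2 := this hf
    rw [Subgroup.mem_centralizer_iff] at h2
    exact (h2 g rfl).symm
  have h3 : ∀ g ∈ MG Q, g 1 = 1 → g ∈ Subgroup.closure (Gs Q) := by
    intro g hg h1
    obtain ⟨a, k, hk, rfl⟩ := MG_dec hg
    rw [Equiv.Perm.mul_apply, (Gs_Hs hk).2, L_app, o2] at h1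
    rw [h1, L_one, one_mul]
    exact hk
  intro x g g' hg hg' hx hx'
  have hL : L x 1 = x := o2 x
  have k1 : ((L x)⁻¹ * g * L x) ∈ Subgroup.closure (Gs Q) := by
    apply h3 _ (mul_mem (mul_mem (inv_mem (L_mem _)) hg) (L_mem _))
    rw [Equiv.Perm.mul_apply, Equiv.Perm.mul_apply, hL, hx, Li_eq, o2]
  have k2 : ((L x)⁻¹ * g' * L x) ∈ Subgroup.closure (Gs Q) := by
    apply h3 _ (mul_mem (mul_mem (inv_mem (L_mem _)) hg') (L_mem _))
    rw [Equiv.Perm.mul_apply, Equiv.Perm.mul_apply, hL, hx', Li_eq, o2]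
  have h4 := h2 _ k1 _ k2
  have h5 : (L x)⁻¹ * (g * g') * L x = (L x)⁻¹ * (g' * g) * L x := by
    have e1 : (L x)⁻¹ * (g * g') * L x = ((L x)⁻¹ * g * L x) * ((L x)⁻¹ * g' * L x) := by group
    have e2 : (L x)⁻¹ * (g' * g) * L x = ((L x)⁻¹ * g' * L x) * ((L x)⁻¹ * g * L x) := by group
    rw [e1, e2, h4]
  exact mul_left_cancel (mul_right_cancel h5)

end gen

section chain

/-- the upper central chain. -/
def Zc (Q : Type) [Lp Q] : ℕ → Set Q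
  | 0 => {1}
  | k + 1 => {a | ∀ x y : Q,
      (∃ n ∈ Zc Q k, x * a = (a * x) * n) ∧
      (∃ n ∈ Zc Q k, a * (x * y) = ((a * x) * y) * n) ∧
      (∃ n ∈ Zc Q k, x * (a * y) = ((x * a) * y) * n) ∧
      (∃ n ∈ Zc Q k, x * (y * a) = ((x * y) * a) * n)}

variable {Q P : Type} [Lp Q] [Lp P] {π : Q → P}

lemma Zc_one_central {a : Q} (h : a ∈ Zc Q 1) : L a ∈ ZM Q := by
  have c1 : ∀ x, x * a = a * x := fun x => by
    obtain ⟨⟨n, hn, e⟩, -⟩ := h x 1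
    have : n = 1 := hn
    rw [e, this, o2]
  have c2 : ∀ x y, a * (x * y) = (a * x) * y := fun x y => by
    obtain ⟨-, ⟨n, hn, e⟩, -⟩ := h x y
    have : n = 1 := hn
    rw [e, this, o2]
  have c3 : ∀ x y, x * (a * y) = (x * a) * y := fun x y => by
    obtain ⟨-, -, ⟨n, hn, e⟩, -⟩ := h x y
    have : n = 1 := hn
    rw [e, this, o2]
  apply cen_of
  · intro q p
    apply rcancel (a := q * p)
    rw [RR_eq, c2]
  · intro p q
    apply rcancel (a := p * q)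
    rw [WW_eq, c2, c3, c1]

lemma Zc_map (hπ : Ex π) : ∀ k, ∀ a ∈ Zc Q (k + 1), π a ∈ Zc P k := by
  intro k
  induction k with
  | zero =>
    intro a ha
    have h1 := Zc_one_central ha
    show π a = 1
    have h2 : a = act (Additive.ofMul ⟨L a, h1⟩) 1 := (o2 a).symm
    rw [h2, hπ.act, hπ.one]
  | succ k ih =>
    intro a ha x y
    obtain ⟨x, rfl⟩ := hπ.sur x
    obtain ⟨y, rfl⟩ := hπ.sur y
    obtain ⟨⟨n1, h1, e1⟩, ⟨n2, h2, e2⟩, ⟨n3, h3, e3⟩, ⟨n4, h4, e4⟩⟩ := ha x y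
    refine ⟨⟨π n1, ih _ h1, ?_⟩, ⟨π n2, ih _ h2, ?_⟩, ⟨π n3, ih _ h3, ?_⟩, ⟨π n4, ih _ h4, ?_⟩⟩ <;>
    simp only [← hπ.mul]
    · rw [e1]
    · rw [e2]
    · rw [e3]
    · rw [e4]

/-- induction on the class. -/
theorem C3_of_nilpotent : ∀ (n : ℕ) (Q : Type) [Lp Q], AB Q → Zc Q n = Set.univ → C3 Q := by
  intro n
  induction n with
  | zero =>
    intro Q _ _ h n _
    have : n ∈ Zc Q 0 := by rw [h]; trivial
    have h1 : n = 1 := this
    rw [h1]; exact Z2_one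
  | succ k ih =>
    intro Q _ hA h
    have hE : Ex (qm (Q := Q)) := Ex_QZ
    have hB := AB_quot hE hA
    apply stage2 hA hE hB
    apply ih (QZ Q) hB
    ext p
    simp only [Set.mem_univ, iff_true]
    obtain ⟨a, rfl⟩ := hE.sur p
    exact Zc_map hE k a (by rw [h]; trivial)

/-- central elements lie in `Zc 1`. -/
lemma ZM_Zc {c : Equiv.Perm Q} (hc : c ∈ ZM Q) : c 1 ∈ Zc Q 1 := by
  intro x y
  refine ⟨⟨1, rfl, ?_⟩, ⟨1, rfl, ?_⟩, ⟨1, rfl, ?_⟩, ⟨1, rfl, ?_⟩⟩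
  · rw [zl hc, zr hc, o1, o2, o2]
  · rw [zr hc, zr hc, zr hc, o1, o1, o2]
  · rw [zr hc, zl hc, zl hc, zr hc, o1, o2, o2]
  · rw [zl hc, zl hc, zl hc, o2, o2, o2]

lemma mul_c {c : Equiv.Perm Q} (hc : c ∈ ZM Q) (u : Q) : c u = u * c 1 := by
  rw [zl hc, o2]

lemma Z2_Zc {n : Q} (hn : Z2 n) : n ∈ Zc Q 2 := by
  intro x y
  obtain ⟨c1, h1, e1⟩ := hn _ (TT_mem x)
  obtain ⟨c1', h1', e1'⟩ := hn _ (TT_mem x)
  obtain ⟨c2, h2, e2⟩ := hn _ (RR_mem x y)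
  obtain ⟨c3, h3, e3⟩ := hn _ (WW_mem x y)
  obtain ⟨c4, h4, e4⟩ := hn _ (LL_mem x y)
  have f1 := TT_eq x n
  rw [e1, zr h1] at f1
  have f2 := RR_eq x y n
  rw [e2, zr h2] at f2
  have f3 := WW_eq x y n
  rw [e3, zr h3] at f3
  have f4 := LL_eq x y n
  rw [e4, zl h4] at f4
  -- f1 : c1 (n*x) = x*n ; f2 : c2 (n*(x*y)) = (n*x)*y ; f3 : c3 (n*(x*y)) = x*(n*y)
  -- f4 : c4 ((x*y)*n) = x*(y*n)
  refine ⟨⟨c1 1, ZM_Zc h1, ?_⟩, ⟨c2⁻¹ 1, ZM_Zc (inv_mem h2), ?_⟩,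
    ⟨(c3 * c2⁻¹ * c1⁻¹) 1, ZM_Zc (mul_mem (mul_mem h3 (inv_mem h2)) (inv_mem h1)), ?_⟩,
    ⟨c4 1, ZM_Zc h4, ?_⟩⟩
  · rw [← f1, mul_c h1]
  · rw [← mul_c (inv_mem h2), ← f2, pinv']
  · rw [← mul_c (mul_mem (mul_mem h3 (inv_mem h2)) (inv_mem h1)), ← f3, ← f1, zr h1, ← f2]
    simp only [Equiv.Perm.mul_apply]
    rw [pinv', pinv']
  · rw [← f4, mul_c h4]

lemma C3_top (h : C3 Q) : Zc Q 3 = Set.univ := by
  have key : ∀ k v : Q, KK Q k → ∃ n ∈ Zc Q 2, k * v = v * n := by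
    intro k v hk
    refine ⟨(L v)⁻¹ (k * v), ?_, (Li_eq.mp rfl)⟩
    apply Z2_Zc
    apply h
    have h1 : (L v)⁻¹ * L k * (L v)⁻¹⁻¹ ∈ NG Q := NG_conj (inv_mem (L_mem v)) hk
    have h2 := KK_one h1
    have h3 : ((L v)⁻¹ * L k * (L v)⁻¹⁻¹) 1 = (L v)⁻¹ (k * v) := by
      rw [inv_inv]
      simp only [Equiv.Perm.mul_apply, L_app, o2]
    rwa [h3] at h2
  ext a
  simp only [Set.mem_univ, iff_true]
  intro x y
  refine ⟨?_, ?_, ?_, ?_⟩
  · rw [← kk_eq x a]; exact key _ _ (kk_K x a)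
  · rw [← nn_eq a x y]; exact key _ _ (nn_K a x y)
  · rw [← nn_eq x a y]; exact key _ _ (nn_K x a y)
  · rw [← nn_eq x y a]; exact key _ _ (nn_K x y a)

end chain

end Pool.Agent.W974.Aim
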