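import Mathlib

set_option autoImplicit false

/-! # Loops with commuting inner mappings: basics -/

namespace Pool.Agent.W974.Aim

/-- loops with explicit divisions. -/
class Lp (Q : Type) extends Mul Q, One Q where
  ld : Q → Q → Q
  rd : Q → Q → Q
  one_mul' : ∀ x : Q, 1 * x = x
  mul_one' : ∀ x : Q, x * 1 = x
  mul_ld : ∀ a b : Q, a * ld a b = b
  ld_mul : ∀ a b : Q, ld a (a * b) = b
  rd_mul : ∀ a b : Q, rd b a * a = b
  mul_rd : ∀ a b : Q, rd (b * a) a = b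

open Lp

variable {Q : Type} [Lp Q]

lemma o1 (x : Q) : 1 * x = x := one_mul' x
lemma o2 (x : Q) : x * 1 = x := mul_one' x

lemma lcancel {a b c : Q} (h : a * b = a * c) : b = c := by
  rw [← ld_mul a b, h, ld_mul]

lemma rcancel {a b c : Q} (h : b * a = c * a) : b = c := by
  rw [← mul_rd a b, h, mul_rd]

lemma rd_of_eq {a b c : Q} (h : a = b * c) : rd a c = b := by
  rw [h, mul_rd]

lemma rd_self (a : Q) : rd a a = 1 := rd_of_eq (o1 a).symm

/-- left translation. -/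
def L (a : Q) : Equiv.Perm Q := ⟨fun x => a * x, fun x => ld a x, fun x => ld_mul a x, fun x => mul_ld a x⟩
/-- right translation. -/
def R (a : Q) : Equiv.Perm Q := ⟨fun x => x * a, fun x => rd x a, fun x => mul_rd a x, fun x => rd_mul a x⟩

@[simp] lemma L_app (a x : Q) : L a x = a * x := rfl
@[simp] lemma R_app (a x : Q) : R a x = x * a := rfl
lemma Li_app (a x : Q) : (L a)⁻¹ x = ld a x := rfl
lemma Ri_app (a x : Q) : (R a)⁻¹ x = rd x a := rfl

lemma Li_eq {a x y : Q} : (L a)⁻¹ x = y ↔ x = a * y := by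
  rw [Equiv.Perm.inv_eq_iff_eq]; rfl
lemma Ri_eq {a x y : Q} : (R a)⁻¹ x = y ↔ x = y * a := by
  rw [Equiv.Perm.inv_eq_iff_eq]; rfl

variable (Q) in
/-- the multiplication group. -/
def MG : Subgroup (Equiv.Perm Q) := Subgroup.closure (Set.range L ∪ Set.range R)

lemma L_mem (a : Q) : L a ∈ MG Q := Subgroup.subset_closure (Or.inl ⟨a, rfl⟩)
lemma R_mem (a : Q) : R a ∈ MG Q := Subgroup.subset_closure (Or.inr ⟨a, rfl⟩)

variable (Q) in
/-- point stabilizers are abelian. -/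
def AB : Prop := ∀ (x : Q) (g g' : Equiv.Perm Q), g ∈ MG Q → g' ∈ MG Q → g x = x → g' x = x →
  g * g' = g' * g

/-- inner maps -/
def LL (a b : Q) : Equiv.Perm Q := (L (a * b))⁻¹ * L a * L b
def RR (b c : Q) : Equiv.Perm Q := (R (b * c))⁻¹ * R c * R b
def MM (a c : Q) : Equiv.Perm Q := (R c)⁻¹ * (L a)⁻¹ * R c * L a
def TT (a : Q) : Equiv.Perm Q := (R a)⁻¹ * L a

variable (Q) in
/-- membership in the inner mapping group -/
def Hs : Subgroup (Equiv.Perm Q) where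
  carrier := {g | g ∈ MG Q ∧ g 1 = 1}
  mul_mem' := by
    rintro a b ⟨ha, ha'⟩ ⟨hb, hb'⟩
    exact ⟨mul_mem ha hb, by simp [Equiv.Perm.mul_apply, hb', ha']⟩
  one_mem' := ⟨one_mem _, rfl⟩
  inv_mem' := by
    rintro a ⟨ha, ha'⟩
    exact ⟨inv_mem ha, by rw [Equiv.Perm.inv_eq_iff_eq, ha']⟩

lemma LL_mem (a b : Q) : LL a b ∈ Hs Q :=
  ⟨mul_mem (mul_mem (inv_mem (L_mem _)) (L_mem _)) (L_mem _), by
    simp only [LL, Equiv.Perm.mul_apply, L_app, o2]
    rw [Li_eq, o2]⟩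

lemma RR_mem (a b : Q) : RR a b ∈ Hs Q :=
  ⟨mul_mem (mul_mem (inv_mem (R_mem _)) (R_mem _)) (R_mem _), by
    simp only [RR, Equiv.Perm.mul_apply, R_app, o1]
    rw [Ri_eq, o1]⟩

lemma TT_mem (a : Q) : TT a ∈ Hs Q :=
  ⟨mul_mem (inv_mem (R_mem _)) (L_mem _), by
    simp only [TT, Equiv.Perm.mul_apply, L_app, o2]
    rw [Ri_eq, o1]⟩

lemma MM_mem (a c : Q) : MM a c ∈ Hs Q :=
  ⟨mul_mem (mul_mem (mul_mem (inv_mem (R_mem _)) (inv_mem (L_mem _))) (R_mem _)) (L_mem _), by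
    simp only [MM, Equiv.Perm.mul_apply, L_app, R_app, o2]
    rw [Ri_eq, o1, Li_eq]⟩

lemma LL_eq (a b x : Q) : (a * b) * LL a b x = a * (b * x) := by
  simp only [LL, Equiv.Perm.mul_apply, L_app]
  exact (Li_eq.mp rfl).symm

lemma RR_eq (b c x : Q) : RR b c x * (b * c) = (x * b) * c := by
  simp only [RR, Equiv.Perm.mul_apply, R_app]
  exact (Ri_eq.mp rfl).symm

lemma TT_eq (a x : Q) : TT a x * a = a * x := by
  simp only [TT, Equiv.Perm.mul_apply, L_app]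
  exact (Ri_eq.mp rfl).symm

lemma MM_eq (a c x : Q) : a * (MM a c x * c) = (a * x) * c := by
  simp only [MM, Equiv.Perm.mul_apply, L_app, R_app]
  have h1 := (Ri_eq (a := c) (x := (L a)⁻¹ (a * x * c))).mp rfl
  rw [← h1]
  exact (Li_eq.mp rfl).symm

variable (Q) in
/-- central permutations. -/
def ZM : Subgroup (Equiv.Perm Q) where
  carrier := {c | c ∈ MG Q ∧ ∀ g ∈ MG Q, g * c = c * g}
  mul_mem' := by
    rintro a b ⟨ha, ha'⟩ ⟨hb, hb'⟩
    refine ⟨mul_mem ha hb, fun g hg => ?_⟩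
    rw [← mul_assoc, ha' g hg, mul_assoc, hb' g hg, mul_assoc]
  one_mem' := ⟨one_mem _, fun g _ => by simp⟩
  inv_mem' := by
    rintro a ⟨ha, ha'⟩
    refine ⟨inv_mem ha, fun g hg => ?_⟩
    rw [eq_inv_mul_iff_mul_eq, ← mul_assoc, ← ha' g hg, mul_assoc, mul_inv_cancel, mul_one]

instance : CommGroup (ZM Q) :=
  { (inferInstance : Group (ZM Q)) with
    mul_comm := fun a b => Subtype.ext (b.2.2 a a.2.1) }

variable (Q) in
abbrev MZ := Additive (ZM Q)

lemma zapp {c g : Equiv.Perm Q} (hc : c ∈ ZM Q) (hg : g ∈ MG Q) (q : Q) : g (c q) = c (g q) := by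
  rw [← Equiv.Perm.mul_apply, hc.2 g hg, Equiv.Perm.mul_apply]

lemma zl {c : Equiv.Perm Q} (hc : c ∈ ZM Q) (a q : Q) : a * c q = c (a * q) := zapp hc (L_mem a) q
lemma zr {c : Equiv.Perm Q} (hc : c ∈ ZM Q) (a q : Q) : c q * a = c (q * a) := zapp hc (R_mem a) q

/-- central permutations act semiregularly. -/
lemma zfree {c c' : Equiv.Perm Q} (hc : c ∈ ZM Q) (hc' : c' ∈ ZM Q) {q : Q} (h : c q = c' q) :
    c = c' := by
  ext p
  have h1 : c p = c' p := by
    have e : p = L (rd p q) q := by simp [rd_mul]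
    rw [e, ← zapp hc (L_mem _), ← zapp hc' (L_mem _), h]
  exact h1

/-- second centre. -/
def Z2 (s : Q) : Prop := ∀ g ∈ Hs Q, ∃ c ∈ ZM Q, g s = c s

variable (Q) in
/-- permutations trivial modulo the centre. -/
def C1 (g : Equiv.Perm Q) : Prop := g ∈ MG Q ∧ ∀ q, ∃ c ∈ ZM Q, g q = c q

variable (Q) in
/-- the group generated by all point stabilizers and the central permutations. -/
def NG : Subgroup (Equiv.Perm Q) := Subgroup.closure ({g | g ∈ MG Q ∧ ∃ x, g x = x} ∪ (ZM Q))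

lemma NG_le : NG Q ≤ MG Q := by
  unfold NG
  rw [Subgroup.closure_le]
  rintro g (⟨hg, _⟩ | hg)
  · exact hg
  · exact hg.1

lemma mem_NG {g : Equiv.Perm Q} (hg : g ∈ MG Q) {x : Q} (hx : g x = x) : g ∈ NG Q :=
  Subgroup.subset_closure (Or.inl ⟨hg, x, hx⟩)

lemma ZM_NG {c : Equiv.Perm Q} (hc : c ∈ ZM Q) : c ∈ NG Q := Subgroup.subset_closure (Or.inr hc)

lemma Hs_NG {g : Equiv.Perm Q} (hg : g ∈ Hs Q) : g ∈ NG Q := mem_NG hg.1 hg.2

/-- Fact 3: a permutation moving `x` by a central element commutes with the stabilizer of `x`. -/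
lemma fact3 (hAB : AB Q) {τ g c : Equiv.Perm Q} {x : Q} (hτ : τ ∈ MG Q) (hc : c ∈ ZM Q)
    (h : τ x = c x) (hg : g ∈ MG Q) (hx : g x = x) : τ * g = g * τ := by
  have h1 : (c⁻¹ * τ) x = x := by
    rw [Equiv.Perm.mul_apply, h]; simp
  have h2 := hAB x (c⁻¹ * τ) g (mul_mem (inv_mem hc.1) hτ) hg h1 hx
  have h3 : τ = c * (c⁻¹ * τ) := by group
  rw [h3, mul_assoc, h2, ← mul_assoc, ← mul_assoc, ← mul_assoc, ← mul_assoc]
  congr 1
  rw [mul_assoc, mul_assoc, ← mul_assoc, ← hc.2 g hg, mul_assoc]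

lemma C1_comm (hAB : AB Q) {τ g : Equiv.Perm Q} (hτ : C1 Q τ) (hg : g ∈ NG Q) : τ * g = g * τ := by
  unfold NG at hg
  induction hg using Subgroup.closure_induction with
  | mem g hg =>
    rcases hg with ⟨hg, x, hx⟩ | hg
    · obtain ⟨c, hc, h⟩ := hτ.2 x
      exact fact3 hAB hτ.1 hc h hg hx
    · exact hg.2 τ hτ.1
  | one => simp
  | mul a b _ _ ha hb => rw [← mul_assoc, ha, mul_assoc, hb, mul_assoc]
  | inv a _ ha => rw [mul_inv_eq_iff_eq_mul, mul_assoc, ha, ← mul_assoc]; simp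


variable (Q) in
/-- the kernel `K` as a predicate. -/
def KK (n : Q) : Prop := L n ∈ NG Q

lemma KK_of {g : Equiv.Perm Q} (hg : g ∈ NG Q) (q : Q) : KK Q (rd (g q) q) := by
  unfold KK
  have h1 : ((L (rd (g q) q))⁻¹ * g) q = q := by
    rw [Equiv.Perm.mul_apply, Li_eq, rd_mul]
  have h2 : (L (rd (g q) q))⁻¹ * g ∈ NG Q :=
    mem_NG (mul_mem (inv_mem (L_mem _)) (NG_le hg)) h1
  have h3 : L (rd (g q) q) = g * ((L (rd (g q) q))⁻¹ * g)⁻¹ := by group
  rw [h3]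
  exact mul_mem hg (inv_mem h2)

lemma KK_one {g : Equiv.Perm Q} (hg : g ∈ NG Q) : KK Q (g 1) := by
  have := KK_of hg 1
  rwa [rd_of_eq (o2 (g 1)).symm] at this

lemma KK_R {n : Q} (hn : KK Q n) : R n ∈ NG Q := by
  have h1 : ((L n)⁻¹ * R n) 1 = 1 := by
    rw [Equiv.Perm.mul_apply, Li_eq, R_app, o1, o2]
  have h2 : (L n)⁻¹ * R n ∈ NG Q := mem_NG (mul_mem (inv_mem (L_mem _)) (R_mem _)) h1
  have h3 : R n = L n * ((L n)⁻¹ * R n) := by group
  rw [h3]
  exact mul_mem hn h2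

lemma KK_app {g : Equiv.Perm Q} (hg : g ∈ NG Q) {n : Q} (hn : KK Q n) : KK Q (g n) := by
  have := KK_one (mul_mem hg hn)
  rwa [Equiv.Perm.mul_apply, L_app, o2] at this

lemma KK_mul {n m : Q} (hn : KK Q n) (hm : KK Q m) : KK Q (n * m) := KK_app hn hm

/-- `NG` is normalized by `MG`. -/
lemma NG_conj {g h : Equiv.Perm Q} (hg : g ∈ MG Q) (hh : h ∈ NG Q) : g * h * g⁻¹ ∈ NG Q := by
  unfold NG at hh
  induction hh using Subgroup.closure_induction with
  | mem h hh =>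
    rcases hh with ⟨hh, x, hx⟩ | hh
    · refine mem_NG (mul_mem (mul_mem hg hh) (inv_mem hg)) (x := g x) ?_
      simp [Equiv.Perm.mul_apply, hx]
    · rw [hh.2 g hg, mul_assoc, mul_inv_cancel, mul_one]
      exact ZM_NG hh
  | one => simp [one_mem]
  | mul a b _ _ ha hb =>
    have : g * (a * b) * g⁻¹ = (g * a * g⁻¹) * (g * b * g⁻¹) := by group
    rw [this]; exact mul_mem ha hb
  | inv a _ ha =>
    have : g * a⁻¹ * g⁻¹ = (g * a * g⁻¹)⁻¹ := by group
    rw [this]; exact inv_mem ha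

/-- the associator and the commutator. -/
def nn (a b c : Q) : Q := rd (a * (b * c)) ((a * b) * c)
def kk (a b : Q) : Q := rd (a * b) (b * a)

lemma nn_eq (a b c : Q) : nn a b c * ((a * b) * c) = a * (b * c) := rd_mul _ _
lemma kk_eq (a b : Q) : kk a b * (b * a) = a * b := rd_mul _ _

lemma nn_K (a b c : Q) : KK Q (nn a b c) := by
  have h1 : L a * L b * (L (a * b))⁻¹ ∈ NG Q := by
    refine mem_NG (mul_mem (mul_mem (L_mem _) (L_mem _)) (inv_mem (L_mem _))) (x := a * b) ?_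
    have : (L (a * b))⁻¹ (a * b) = 1 := by rw [Li_eq, o2]
    simp only [Equiv.Perm.mul_apply, this, L_app, o2]
  have h2 := KK_of h1 ((a * b) * c)
  have h3 : (L a * L b * (L (a * b))⁻¹) ((a * b) * c) = a * (b * c) := by
    have : (L (a * b))⁻¹ ((a * b) * c) = c := by rw [Li_eq]
    simp only [Equiv.Perm.mul_apply, this, L_app]
  rwa [h3] at h2

lemma kk_K (a b : Q) : KK Q (kk a b) := by
  have h1 : L a * (R a)⁻¹ ∈ NG Q := by
    refine mem_NG (mul_mem (L_mem _) (inv_mem (R_mem _))) (x := a) ?_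
    have : (R a)⁻¹ a = 1 := by rw [Ri_eq, o1]
    simp only [Equiv.Perm.mul_apply, this, L_app, o2]
  have h2 := KK_of h1 (b * a)
  have h3 : (L a * (R a)⁻¹) (b * a) = a * b := by
    have : (R a)⁻¹ (b * a) = b := by rw [Ri_eq]
    simp only [Equiv.Perm.mul_apply, this, L_app]
  rwa [h3] at h2

/-- displacement. -/
def yy (h : Equiv.Perm Q) (x : Q) : Q := rd x (h x)

lemma yy_eq (h : Equiv.Perm Q) (x : Q) : yy h x * h x = x := rd_mul _ _

lemma yy_K {h : Equiv.Perm Q} (hh : h ∈ NG Q) (x : Q) : KK Q (yy h x) := by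
  have := KK_of (inv_mem hh) (h x)
  simpa [yy] using this

/-- the six facts about `s ∈ Z2`, and `n ∈ K`. -/
lemma z2_TT {s : Q} (hs : Z2 s) : C1 Q (TT s) := by
  refine ⟨(TT_mem s).1, fun q => ?_⟩
  obtain ⟨c, hc, h⟩ := hs _ (TT_mem q)
  refine ⟨c⁻¹, inv_mem hc, ?_⟩
  have h1 := TT_eq q s
  rw [h, zr hc] at h1
  have h2 := TT_eq s q
  apply rcancel (a := s)
  rw [h2, zr (inv_mem hc), ← h1]; simp

lemma z2_LLs {s : Q} (hs : Z2 s) (a : Q) : C1 Q (LL s a) := by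
  refine ⟨(LL_mem s a).1, fun q => ?_⟩
  obtain ⟨c, hc, h⟩ := hs _ (RR_mem a q)
  refine ⟨c⁻¹, inv_mem hc, ?_⟩
  have h1 := RR_eq a q s
  rw [h, zr hc] at h1
  have h2 := LL_eq s a q
  apply lcancel (a := s * a)
  rw [h2, zl (inv_mem hc), ← h1]; simp

lemma z2_LLa {s : Q} (hs : Z2 s) (a : Q) : C1 Q (LL a s) := by
  refine ⟨(LL_mem a s).1, fun q => ?_⟩
  obtain ⟨c, hc, h⟩ := hs _ (MM_mem a q)
  refine ⟨c⁻¹, inv_mem hc, ?_⟩
  have h1 := MM_eq a q s
  rw [h, zr hc, zl hc] at h1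
  have h2 := LL_eq a s q
  apply lcancel (a := a * s)
  rw [h2, zl (inv_mem hc), ← h1]; simp

lemma z2_RRs {s : Q} (hs : Z2 s) (a : Q) : C1 Q (RR s a) := by
  refine ⟨(RR_mem s a).1, fun q => ?_⟩
  obtain ⟨c, hc, h⟩ := hs _ (MM_mem q a)
  refine ⟨c, hc, ?_⟩
  have h1 := MM_eq q a s
  rw [h, zr hc, zl hc] at h1
  have h2 := RR_eq s a q
  apply rcancel (a := s * a)
  rw [h2, zr hc, ← h1]

lemma z2_RRa {s : Q} (hs : Z2 s) (a : Q) : C1 Q (RR a s) := by
  refine ⟨(RR_mem a s).1, fun q => ?_⟩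
  obtain ⟨c, hc, h⟩ := hs _ (LL_mem q a)
  refine ⟨c⁻¹, inv_mem hc, ?_⟩
  have h1 := LL_eq q a s
  rw [h, zl hc] at h1
  have h2 := RR_eq a s q
  apply rcancel (a := a * s)
  rw [h2, zr (inv_mem hc), ← h1]; simp

lemma z2_MMs {s : Q} (hs : Z2 s) (a : Q) : C1 Q (MM s a) := by
  refine ⟨(MM_mem s a).1, fun q => ?_⟩
  obtain ⟨c, hc, h⟩ := hs _ (RR_mem q a)
  refine ⟨c, hc, ?_⟩
  have h1 := RR_eq q a s
  rw [h, zr hc] at h1
  have h2 := MM_eq s a q
  apply rcancel (a := a)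
  apply lcancel (a := s)
  rw [h2, zr hc, zl hc, ← h1]

lemma z2_MMa {s : Q} (hs : Z2 s) (a : Q) : C1 Q (MM a s) := by
  refine ⟨(MM_mem a s).1, fun q => ?_⟩
  obtain ⟨c, hc, h⟩ := hs _ (LL_mem a q)
  refine ⟨c⁻¹, inv_mem hc, ?_⟩
  have h1 := LL_eq a q s
  rw [h, zl hc] at h1
  have h2 := MM_eq a s q
  apply rcancel (a := s)
  apply lcancel (a := a)
  rw [h2, zr (inv_mem hc), zl (inv_mem hc), ← h1]; simp

/-- an element of `C1 ∩ Hs` fixes `K` pointwise. -/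
lemma C1_fix (hAB : AB Q) {τ : Equiv.Perm Q} (hτ : C1 Q τ) (h1 : τ 1 = 1) {n : Q} (hn : KK Q n) :
    τ n = n := by
  have h := C1_comm hAB hτ hn
  have h2 : (τ * L n) 1 = (L n * τ) 1 := by rw [h]
  simpa [Equiv.Perm.mul_apply, h1, o2] using h2

section six
variable (hAB : AB Q) {s n : Q} (hs : Z2 s) (hn : KK Q n)
include hAB hs hn

lemma I1 : s * n = n * s := by
  have h := C1_fix hAB (z2_TT hs) (TT_mem s).2 hn
  have := TT_eq s n
  rw [h] at this; exact this.symm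

lemma I2 (q : Q) : (n * s) * q = n * (s * q) := by
  have h := C1_fix hAB (z2_RRs hs q) (RR_mem s q).2 hn
  have := RR_eq s q n
  rw [h] at this; exact this.symm

lemma I3 (q : Q) : (q * s) * n = q * (s * n) := by
  have h := C1_fix hAB (z2_LLa hs q) (LL_mem q s).2 hn
  have := LL_eq q s n
  rw [h] at this; exact this

lemma I4 (q : Q) : (s * q) * n = s * (q * n) := by
  have h := C1_fix hAB (z2_LLs hs q) (LL_mem s q).2 hn
  have := LL_eq s q n
  rw [h] at this; exact this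

lemma I5 (q : Q) : (n * q) * s = n * (q * s) := by
  have h := C1_fix hAB (z2_RRa hs q) (RR_mem q s).2 hn
  have := RR_eq q s n
  rw [h] at this; exact this.symm

lemma I6 (q : Q) : (q * n) * s = q * (n * s) := by
  have h := C1_fix hAB (z2_MMa hs q) (MM_mem q s).2 hn
  have := MM_eq q s n
  rw [h] at this; exact this.symm

lemma I7 (q : Q) : (s * n) * q = s * (n * q) := by
  have h := C1_fix hAB (z2_MMs hs q) (MM_mem s q).2 hn
  have := MM_eq s q n
  rw [h] at this; exact this.symm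

end six

/-- commuting of displacements at the same point. -/
lemma yy_comm (hAB : AB Q) {g h : Equiv.Perm Q} (hg : g ∈ Hs Q) (hh : h ∈ Hs Q) (x : Q) :
    yy g x * yy h x = yy h x * yy g x := by
  -- `L (yy h x) * h` fixes `x`
  have key : ∀ g ∈ Hs Q, (L (yy g x) * g) x = x := fun g _ => by
    rw [Equiv.Perm.mul_apply, L_app, yy_eq]
  have mem : ∀ g ∈ Hs Q, L (yy g x) * g ∈ MG Q := fun g hg => mul_mem (L_mem _) hg.1
  have ev : ∀ g ∈ Hs Q, (L (yy g x) * g) 1 = yy g x := fun g hg => by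
    rw [Equiv.Perm.mul_apply, hg.2, L_app, o2]
  have hT : TT x x = x := rcancel (TT_eq x x)
  have h1 := hAB x (TT x) (L (yy g x) * g) (TT_mem x).1 (mem g hg) hT (key g hg)
  have h2 : TT x (yy g x) = yy g x := by
    have : (TT x * (L (yy g x) * g)) 1 = ((L (yy g x) * g) * TT x) 1 := by rw [h1]
    rw [Equiv.Perm.mul_apply, ev g hg, Equiv.Perm.mul_apply, (TT_mem x).2, ev g hg] at this
    exact this
  have h3 : yy g x * x = x * yy g x := by
    have := TT_eq x (yy g x); rwa [h2] at this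
  have hT2 : TT (yy g x) x = x := by
    apply rcancel (a := yy g x)
    rw [TT_eq, h3]
  have h4 := hAB x (TT (yy g x)) (L (yy h x) * h) (TT_mem _).1 (mem h hh) hT2 (key h hh)
  have h5 : TT (yy g x) (yy h x) = yy h x := by
    have : (TT (yy g x) * (L (yy h x) * h)) 1 = ((L (yy h x) * h) * TT (yy g x)) 1 := by rw [h4]
    rw [Equiv.Perm.mul_apply, ev h hh, Equiv.Perm.mul_apply, (TT_mem _).2, ev h hh] at this
    exact this
  have := TT_eq (yy g x) (yy h x)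
  rw [h5] at this
  exact this.symm

/-- the symmetry relation. -/
lemma yy_sym (hAB : AB Q) {g h : Equiv.Perm Q} (hg : g ∈ Hs Q) (hh : h ∈ Hs Q) (x : Q) :
    yy h x * h (yy g x) = yy g x * g (yy h x) := by
  have key : ∀ g ∈ Hs Q, (L (yy g x) * g) x = x := fun g _ => by
    rw [Equiv.Perm.mul_apply, L_app, yy_eq]
  have mem : ∀ g ∈ Hs Q, L (yy g x) * g ∈ MG Q := fun g hg => mul_mem (L_mem _) hg.1
  have ev : ∀ g ∈ Hs Q, (L (yy g x) * g) 1 = yy g x := fun g hg => by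
    rw [Equiv.Perm.mul_apply, hg.2, L_app, o2]
  have h1 := hAB x _ _ (mem h hh) (mem g hg) (key h hh) (key g hg)
  have : ((L (yy h x) * h) * (L (yy g x) * g)) 1 = ((L (yy g x) * g) * (L (yy h x) * h)) 1 := by
    rw [h1]
  rw [Equiv.Perm.mul_apply (L (yy h x) * h), ev g hg, Equiv.Perm.mul_apply (L (yy g x) * g),
    ev h hh] at this
  exact this

end Pool.Agent.W974.Aim
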