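import Pool.Agent.W974.Aim9

set_option autoImplicit false
set_option linter.unusedSectionVars false

namespace Pool.Agent.W974.Aim

open Lp

section concl
variable {Q P : Type} [Lp Q] [Lp P] [hAB : Fact (AB Q)] {π : Q → P}

variable (hπ : Ex π) (hB : AB P) (hC : C3 P)
include hπ hB hC

lemma ZLH3 (p q c x a : Q) : DD (LL p q) (H3 c x a) = 0 := by
  unfold H3
  rw [DD_ee (hEE hπ hB hC) (LL_mem p q) (TT_mem c) (kk_K x a), H4_t1 hπ hB hC,
    DD_neg (TT_mem _), ZTH4 hπ hB hC, neg_zero]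
lemma ZRH3 (p q c x a : Q) : DD (RR p q) (H3 c x a) = 0 := by
  unfold H3
  rw [DD_ee (hEE hπ hB hC) (RR_mem p q) (TT_mem c) (kk_K x a), H4_r hπ hB hC, ZTH4 hπ hB hC]
lemma ZMH3 (p q c x a : Q) : DD (MM p q) (H3 c x a) = 0 := by
  unfold H3
  rw [DD_ee (hEE hπ hB hC) (MM_mem p q) (TT_mem c) (kk_K x a), H4_m hπ hB hC, ZTH4 hπ hB hC]

omit hπ hB hC in
lemma fixed_of {g : Equiv.Perm Q} (hg : g ∈ Hs Q) {m : M2 Q} (h : DD g m = 0) :
    g (sv m) = sv m := by rw [DD_spec hg, h, act_zero]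

omit hB hC in
lemma cenM2 {m : M2 Q} (hR : ∀ p q, DD (RR p q) m = 0) (hM : ∀ p q, DD (MM p q) m = 0)
    (hT : ∀ p, DD (TT p) m = 0) (q : Q) : π (act2 m q) = π q := by
  have hW : ∀ p q, DD (WW p q) m = 0 := fun p q => by
    rw [WW_dec, DD_mul (mul_mem (RR_mem p q) (TT_mem p)) (inv_mem (MM_mem p q)),
      DD_mul (RR_mem p q) (TT_mem p), DD_inv (MM_mem p q), hR, hM, hT]; simp
  have hz : L (sv m) ∈ ZM Q :=
    cen_of (fun q p => fixed_of (RR_mem q p) (hR q p)) (fun p q => fixed_of (WW_mem p q) (hW p q))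
  have h1 : act2 m q = act (Additive.ofMul ⟨L (sv m), hz⟩) q := (sv_spec m).2.2 q
  rw [h1, hπ.act]

lemma fix_of_ee {g : Equiv.Perm Q} (hg : g ∈ Hs Q) {k : Q} (hk : KK Q k)
    (hR : ∀ p q, DD (RR p q) (ee g k) = 0) (hM : ∀ p q, DD (MM p q) (ee g k) = 0)
    (hT : ∀ p, DD (TT p) (ee g k) = 0) : π (g k) = π k := by
  rw [ee_spec (hEE hπ hB hC) hg hk, cenM2 hπ hR hM hT]

lemma nn_central (a b c : P) : L (nn a b c) ∈ ZM P := by
  obtain ⟨a, rfl⟩ := hπ.sur a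
  obtain ⟨b, rfl⟩ := hπ.sur b
  obtain ⟨c, rfl⟩ := hπ.sur c
  rw [← hπ.nn]
  have K := nn_K a b c
  have r5 : ∀ p q p' q' a b c : Q, DD (RR p q) (-H5 p' q' a b c) = 0 := fun p q p' q' a b c => by
    rw [DD_neg (RR_mem _ _), ZRH5 hπ hB hC, neg_zero]
  have m5 : ∀ p q p' q' a b c : Q, DD (MM p q) (-H5 p' q' a b c) = 0 := fun p q p' q' a b c => by
    rw [DD_neg (MM_mem _ _), ZMH5 hπ hB hC, neg_zero]
  have t5 : ∀ p p' q' a b c : Q, DD (TT p) (-H5 p' q' a b c) = 0 := fun p p' q' a b c => by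
    rw [DD_neg (TT_mem _), ZTH5 hπ hB hC, neg_zero]
  have hR : ∀ p q, π (RR p q (nn a b c)) = π (nn a b c) := fun p q => by
    have e := H5_r hπ hB hC a b c p q
    apply fix_of_ee hπ hB hC (RR_mem p q) K <;> rw [e]
    · exact fun _ _ => r5 _ _ _ _ _ _ _
    · exact fun _ _ => m5 _ _ _ _ _ _ _
    · exact fun _ => t5 _ _ _ _ _ _
  have hM : ∀ p q, π (MM p q (nn a b c)) = π (nn a b c) := fun p q => by
    have e := H5_m hπ hB hC a b p c q
    apply fix_of_ee hπ hB hC (MM_mem p q) K <;> rw [e]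
    · exact fun _ _ => r5 _ _ _ _ _ _ _
    · exact fun _ _ => m5 _ _ _ _ _ _ _
    · exact fun _ => t5 _ _ _ _ _ _
  have hT : ∀ p, π (TT p (nn a b c)) = π (nn a b c) := fun p => by
    apply fix_of_ee hπ hB hC (TT_mem p) K
    · exact fun _ _ => ZRH4 hπ hB hC _ _ a b p c
    · exact fun _ _ => ZMH4 hπ hB hC _ _ a b p c
    · exact fun _ => ZTH4 hπ hB hC _ a b p c
  have hR' : ∀ p q : P, RR p q (π (nn a b c)) = π (nn a b c) := fun p q => by
    obtain ⟨p, rfl⟩ := hπ.sur p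
    obtain ⟨q, rfl⟩ := hπ.sur q
    rw [← Lf_RR hπ, hR]
  have hM' : ∀ p q : P, MM p q (π (nn a b c)) = π (nn a b c) := fun p q => by
    obtain ⟨p, rfl⟩ := hπ.sur p
    obtain ⟨q, rfl⟩ := hπ.sur q
    rw [← Lf_MM hπ, hM]
  have hT' : ∀ p : P, TT p (π (nn a b c)) = π (nn a b c) := fun p => by
    obtain ⟨p, rfl⟩ := hπ.sur p
    rw [← Lf_TT hπ, hT]
  apply cen_of hR'
  intro p q
  rw [WW_dec, Equiv.Perm.mul_apply, Equiv.Perm.mul_apply]
  have : (MM p q)⁻¹ (π (nn a b c)) = π (nn a b c) := by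
    rw [Equiv.Perm.inv_eq_iff_eq, hM']
  rw [this, hT', hR']

lemma kk_central (a b : P) : L (kk a b) ∈ ZM P := by
  obtain ⟨a, rfl⟩ := hπ.sur a
  obtain ⟨b, rfl⟩ := hπ.sur b
  rw [← hπ.kk]
  have K := kk_K a b
  have hR : ∀ p q, π (RR p q (kk a b)) = π (kk a b) := fun p q => by
    have e := H4_r hπ hB hC a p b q
    apply fix_of_ee hπ hB hC (RR_mem p q) K <;> rw [e]
    · exact fun _ _ => ZRH4 hπ hB hC _ _ _ _ _ _
    · exact fun _ _ => ZMH4 hπ hB hC _ _ _ _ _ _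
    · exact fun _ => ZTH4 hπ hB hC _ _ _ _ _
  have hM : ∀ p q, π (MM p q (kk a b)) = π (kk a b) := fun p q => by
    have e := H4_m hπ hB hC p a b q
    apply fix_of_ee hπ hB hC (MM_mem p q) K <;> rw [e]
    · exact fun _ _ => ZRH4 hπ hB hC _ _ _ _ _ _
    · exact fun _ _ => ZMH4 hπ hB hC _ _ _ _ _ _
    · exact fun _ => ZTH4 hπ hB hC _ _ _ _ _
  have hT : ∀ p, π (TT p (kk a b)) = π (kk a b) := fun p => by
    apply fix_of_ee hπ hB hC (TT_mem p) K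
    · exact fun _ _ => ZRH3 hπ hB hC _ _ p a b
    · exact fun _ _ => ZMH3 hπ hB hC _ _ p a b
    · exact fun _ => ZTH3 hπ hB hC _ p a b
  have hR' : ∀ p q : P, RR p q (π (kk a b)) = π (kk a b) := fun p q => by
    obtain ⟨p, rfl⟩ := hπ.sur p
    obtain ⟨q, rfl⟩ := hπ.sur q
    rw [← Lf_RR hπ, hR]
  have hM' : ∀ p q : P, MM p q (π (kk a b)) = π (kk a b) := fun p q => by
    obtain ⟨p, rfl⟩ := hπ.sur p
    obtain ⟨q, rfl⟩ := hπ.sur q
    rw [← Lf_MM hπ, hM]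
  have hT' : ∀ p : P, TT p (π (kk a b)) = π (kk a b) := fun p => by
    obtain ⟨p, rfl⟩ := hπ.sur p
    rw [← Lf_TT hπ, hT]
  apply cen_of hR'
  intro p q
  rw [WW_dec, Equiv.Perm.mul_apply, Equiv.Perm.mul_apply]
  have : (MM p q)⁻¹ (π (kk a b)) = π (kk a b) := by
    rw [Equiv.Perm.inv_eq_iff_eq, hM']
  rw [this, hT', hR']

end concl

/-- If associators and commutators are central then all of `K` is central. -/
lemma class2 {P : Type} [Lp P] (hn : ∀ a b c : P, L (nn a b c) ∈ ZM P)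
    (hk : ∀ a b : P, L (kk a b) ∈ ZM P) {n : P} (h : KK P n) : L n ∈ ZM P := by
  have h1 : ∀ g ∈ MG P, ∃ a : P, ∀ q, ∃ c ∈ ZM P, g q = c (a * q) := by
    intro g hg
    unfold MG at hg
    induction hg using Subgroup.closure_induction with
    | mem g hg =>
      rcases hg with ⟨a, rfl⟩ | ⟨a, rfl⟩
      · exact ⟨a, fun q => ⟨1, one_mem _, rfl⟩⟩
      · exact ⟨a, fun q => ⟨L (kk q a), hk q a, (kk_eq q a).symm⟩⟩
    | one => exact ⟨1, fun q => ⟨1, one_mem _, (o1 q).symm⟩⟩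
    | mul g g' _ _ h1 h2 =>
      obtain ⟨a, ha⟩ := h1
      obtain ⟨b, hb⟩ := h2
      refine ⟨a * b, fun q => ?_⟩
      obtain ⟨c', hc', e'⟩ := hb q
      obtain ⟨c, hc, e⟩ := ha (g' q)
      refine ⟨c * c' * L (nn a b q), mul_mem (mul_mem hc hc') (hn a b q), ?_⟩
      rw [Equiv.Perm.mul_apply, e, e', zl hc']
      simp only [Equiv.Perm.mul_apply, L_app, nn_eq]
    | inv g _ h1 =>
      obtain ⟨a, ha⟩ := h1
      refine ⟨ld a 1, fun q => ?_⟩
      obtain ⟨c, hc, e⟩ := ha (g⁻¹ q)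
      have hz : c * L (nn (ld a 1) a (g⁻¹ q)) * L (kk (ld a 1) a) ∈ ZM P :=
        mul_mem (mul_mem hc (hn _ _ _)) (hk _ _)
      refine ⟨_, inv_mem hz, ?_⟩
      rw [Equiv.Perm.eq_inv_iff_eq]
      rw [pinv] at e
      conv_rhs => rw [e, zl hc]
      simp only [Equiv.Perm.mul_apply, L_app]
      rw [← nn_eq (ld a 1) a (g⁻¹ q)]
      congr 2
      have h5 := kk_eq (ld a 1) a
      rw [mul_ld, o2] at h5
      rw [← h5]
  have h2 : ∀ g ∈ NG P, ∀ q, ∃ c ∈ ZM P, g q = c q := by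
    intro g hg
    unfold NG at hg
    induction hg using Subgroup.closure_induction with
    | mem g hg =>
      rcases hg with ⟨hg, x, hx⟩ | hg
      · obtain ⟨a, ha⟩ := h1 g hg
        intro q
        obtain ⟨c, hc, e⟩ := ha x
        rw [hx] at e
        have h3 : a = c⁻¹ 1 := by
          apply rcancel (a := x)
          rw [zr (inv_mem hc), o1, Equiv.Perm.eq_inv_iff_eq, ← e]
        obtain ⟨c', hc', e'⟩ := ha q
        refine ⟨c' * c⁻¹, mul_mem hc' (inv_mem hc), ?_⟩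
        rw [e', h3, zr (inv_mem hc), o1, Equiv.Perm.mul_apply]
      · exact fun q => ⟨g, hg, rfl⟩
    | one => exact fun q => ⟨1, one_mem _, rfl⟩
    | mul g g' _ _ h1 h2 =>
      intro q
      obtain ⟨c', hc', e'⟩ := h2 q
      obtain ⟨c, hc, e⟩ := h1 (g' q)
      exact ⟨c * c', mul_mem hc hc', by rw [Equiv.Perm.mul_apply, e, e', Equiv.Perm.mul_apply]⟩
    | inv g _ h1 =>
      intro q
      obtain ⟨c, hc, e⟩ := h1 (g⁻¹ q)
      refine ⟨c⁻¹, inv_mem hc, ?_⟩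
      rw [Equiv.Perm.eq_inv_iff_eq, ← e, pinv]
  obtain ⟨c, hc, e⟩ := h2 _ h 1
  rw [L_app, o2] at e
  rw [e, ZM_eq' hc]
  exact hc

/-- Stage 2. -/
theorem stage2 {Q P : Type} [Lp Q] [Lp P] (hA : AB Q) {π : Q → P} (hπ : Ex π) (hB : AB P)
    (hC : C3 P) : C3 Q := by
  haveI : Fact (AB Q) := ⟨hA⟩
  intro n hn
  apply hπ.Z2'
  exact class2 (nn_central hπ hB hC) (kk_central hπ hB hC) (hπ.KK hn)

end Pool.Agent.W974.Aim
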