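import Pool.Agent.W974.Aim1

set_option autoImplicit false
set_option linter.unusedSectionVars false

namespace Pool.Agent.W974.Aim

open Lp

/-- a cyclically invariant 3-cocycle is additive. -/
lemma additive_of_cocycle {Q M : Type} [Mul Q] [AddCommGroup M] (f : Q → Q → Q → M)
    (cyc : ∀ x y z, f x y z = f y z x)
    (coc : ∀ w x y z, f x y z + f w (x * y) z + f w x y = f w x (y * z) + f (w * x) y z)
    (sy : ∀ u v p q, f (u * v) p q = f (v * u) p q) (u v p q : Q) :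
    f (u * v) p q = f u p q + f v p q := by
  obtain ⟨a, ha⟩ : ∃ a : Q → Q → Q → Q → M, ∀ u v p q, a u v p q = f (u * v) p q - f u p q - f v p q :=
    ⟨_, fun _ _ _ _ => rfl⟩
  have as : ∀ u v p q, a u v p q = a v u p q := fun u v p q => by
    rw [ha, ha, sy u v]; abel
  have star : ∀ w x y z, a x y z w - a y z w x - a w x y z = 0 := fun w x y z => by
    rw [ha, ha, ha]
    have h1 := coc w x y z
    rw [cyc w (x * y) z, ← cyc (y * z) w x] at h1
    have h2 := cyc z w x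
    have h3 := cyc w x z
    have h4 := cyc w y z
    have h5 := cyc y w x
    have e1 : f (w * x) y z = f x y z + f (x * y) z w + f w x y - f (y * z) w x := by
      rw [eq_sub_iff_add_eq, add_comm, ← h1]
    rw [e1, h2, h3, h4, h5]
    abel
  have s1 := star u v p q
  have s2 := star u v q p
  have s3 := star v q u p
  have s4 := star p u v q
  have s5 := star p v q u
  have key : a u v p q = 0 := by
    have : a u v p q = -(a v p q u - a p q u v - a u v p q) + (a v q p u - a q p u v - a u v q p)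
        - (a q u p v - a u p v q - a v q u p) + (a u v q p - a v q p u - a p u v q)
        - (a v q u p - a q u p v - a p v q u) := by
      rw [as q p u v, as p u v q, as p v q u]; abel
    rw [this, s1, s2, s3, s4, s5]; abel
  have := ha u v p q
  rw [key] at this
  rw [eq_comm, sub_sub, sub_eq_zero] at this
  exact this


variable {Q : Type} [Lp Q]

/-- action of the centre. -/
def act (m : MZ Q) (q : Q) : Q := ((Additive.toMul m : ZM Q) : Equiv.Perm Q) q

lemma act_add (m m' : MZ Q) (q : Q) : act (m + m') q = act m (act m' q) := rfl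
@[simp] lemma act_zero (q : Q) : act (0 : MZ Q) q = q := rfl
lemma act_neg_act (m : MZ Q) (q : Q) : act (-m) (act m q) = q := by
  rw [← act_add]; simp
lemma g_act {g : Equiv.Perm Q} (hg : g ∈ MG Q) (m : MZ Q) (q : Q) : g (act m q) = act m (g q) :=
  zapp (Additive.toMul m).2 hg q
lemma mul_act (a : Q) (m : MZ Q) (q : Q) : a * act m q = act m (a * q) := zl (Additive.toMul m).2 a q
lemma act_mul (a : Q) (m : MZ Q) (q : Q) : act m q * a = act m (q * a) := zr (Additive.toMul m).2 a q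
lemma act_inj {m m' : MZ Q} {q : Q} (h : act m q = act m' q) : m = m' := by
  have := zfree (Additive.toMul m).2 (Additive.toMul m').2 h
  exact Additive.toMul.injective (Subtype.ext this)
lemma act_inj' {m : MZ Q} {q q' : Q} (h : act m q = act m q') : q = q' :=
  (((Additive.toMul m : ZM Q) : Equiv.Perm Q)).injective h

lemma act_comm (m m' : MZ Q) (q : Q) : act m (act m' q) = act m' (act m q) := by
  rw [← act_add, add_comm, act_add]

lemma pinv (g : Equiv.Perm Q) (x : Q) : g (g⁻¹ x) = x := Equiv.apply_symm_apply g x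
lemma pinv' (g : Equiv.Perm Q) (x : Q) : g⁻¹ (g x) = x := Equiv.symm_apply_apply g x

lemma z2_iff {s : Q} (hs : Z2 s) {g : Equiv.Perm Q} (hg : g ∈ Hs Q) : ∃ m : MZ Q, g s = act m s := by
  obtain ⟨c, hc, h⟩ := hs g hg
  exact ⟨Additive.ofMul ⟨c, hc⟩, h⟩

open Classical in
/-- the displacement of a second-centre element. -/
noncomputable def dd (g : Equiv.Perm Q) (n : Q) : MZ Q :=
  if h : ∃ m : MZ Q, g n = act m n then h.choose else 0

lemma dd_spec {g : Equiv.Perm Q} (hg : g ∈ Hs Q) {n : Q} (hn : Z2 n) : g n = act (dd g n) n := by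
  have h := z2_iff hn hg
  unfold dd
  rw [dif_pos h]
  exact h.choose_spec

lemma dd_uniq {g : Equiv.Perm Q} {n : Q} {m : MZ Q} (h : g n = act m n) : dd g n = m := by
  have h' : ∃ m : MZ Q, g n = act m n := ⟨m, h⟩
  unfold dd
  rw [dif_pos h']
  exact act_inj (q := n) (by rw [← h'.choose_spec, h])

lemma dd_mul {g g' : Equiv.Perm Q} (hg : g ∈ Hs Q) (hg' : g' ∈ Hs Q) {n : Q} (hn : Z2 n) :
    dd (g * g') n = dd g n + dd g' n := by
  apply dd_uniq
  rw [Equiv.Perm.mul_apply, dd_spec hg' hn, g_act hg.1, dd_spec hg hn, ← act_add, add_comm]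

lemma dd_one {n : Q} : dd (1 : Equiv.Perm Q) n = 0 := dd_uniq (by simp)

lemma dd_inv {g : Equiv.Perm Q} (hg : g ∈ Hs Q) {n : Q} (hn : Z2 n) : dd g⁻¹ n = - dd g n := by
  have := dd_mul hg (inv_mem hg) hn
  rw [mul_inv_cancel, dd_one] at this
  exact (neg_eq_of_add_eq_zero_right this.symm).symm

lemma dd_act {g : Equiv.Perm Q} (hg : g ∈ Hs Q) {n : Q} (hn : Z2 n) (m : MZ Q) :
    dd g (act m n) = dd g n := by
  apply dd_uniq
  rw [g_act hg.1, dd_spec hg hn, act_comm]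

lemma dd_at_one {g : Equiv.Perm Q} (hg : g ∈ Hs Q) : dd g (1 : Q) = 0 := dd_uniq (by simp [hg.2])

lemma Z2_one : Z2 (1 : Q) := fun g hg => ⟨1, one_mem _, by simp [hg.2]⟩

lemma Z2_act {s : Q} (hs : Z2 s) (m : MZ Q) : Z2 (act m s) := fun g hg => by
  obtain ⟨c, hc, h⟩ := hs g hg
  exact ⟨c, hc, by rw [g_act hg.1, h, ← g_act hc.1]⟩

/-- left to right transport through the pair `(p, q)`. -/
def WW (p q : Q) : Equiv.Perm Q := (R (p * q))⁻¹ * L p * R q

lemma WW_mem (a b : Q) : WW a b ∈ Hs Q :=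
  ⟨mul_mem (mul_mem (inv_mem (R_mem _)) (L_mem _)) (R_mem _), by
    simp only [WW, Equiv.Perm.mul_apply, L_app, R_app, o1]
    rw [Ri_eq, o1]⟩

lemma WW_eq (p q x : Q) : WW p q x * (p * q) = p * (x * q) := by
  simp only [WW, Equiv.Perm.mul_apply, L_app, R_app]
  exact (Ri_eq.mp rfl).symm

lemma pull1 {s : Q} (hs : Z2 s) (q p : Q) : ∃ m : MZ Q, (s * q) * p = act m (s * (q * p)) := by
  obtain ⟨m, hm⟩ := z2_iff hs (RR_mem q p)
  exact ⟨m, by rw [← RR_eq, hm, act_mul]⟩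

lemma pull2 {s : Q} (hs : Z2 s) (q p : Q) : ∃ m : MZ Q, p * (s * q) = act m (s * (p * q)) := by
  obtain ⟨m, hm⟩ := z2_iff hs (WW_mem p q)
  exact ⟨m, by rw [← WW_eq, hm, act_mul]⟩

variable (Q) in
/-- class at most three. -/
def C3 : Prop := ∀ n : Q, KK Q n → Z2 n

section stage1
variable (hAB : AB Q) (hC : C3 Q)
include hAB hC

lemma nZ (a b c : Q) : Z2 (nn a b c) := hC _ (nn_K a b c)
lemma kZ (a b : Q) : Z2 (kk a b) := hC _ (kk_K a b)
lemma yZ {h : Equiv.Perm Q} (hh : h ∈ Hs Q) (x : Q) : Z2 (yy h x) := hC _ (yy_K (Hs_NG hh) x)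

/-- `K` is commutative and associates. -/
lemma Kcomm {n n' : Q} (hn : KK Q n) (hn' : KK Q n') : n * n' = n' * n := I1 hAB (hC n hn) hn'
lemma Kassoc {n n' : Q} (hn : KK Q n) (hn' : KK Q n') (q : Q) : (n * n') * q = n * (n' * q) :=
  I7 hAB (hC n hn) hn' q

/-- the symmetry relation for `dd`. -/
lemma dd_sym {g h : Equiv.Perm Q} (hg : g ∈ Hs Q) (hh : h ∈ Hs Q) (x : Q) :
    dd g (yy h x) = dd h (yy g x) := by
  have h1 := yy_sym hAB hg hh x
  rw [dd_spec hg (yZ hAB hC hh x), dd_spec hh (yZ hAB hC hg x), mul_act, mul_act,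
    yy_comm hAB hg hh x] at h1
  exact (act_inj h1).symm

/-- additivity on `K`. -/
lemma dd_add {g : Equiv.Perm Q} (hg : g ∈ Hs Q) {n n' : Q} (hn : KK Q n) (hn' : KK Q n') :
    dd g (n * n') = dd g n + dd g n' := by
  have hv : C1 Q (g * L n * g⁻¹ * (L n)⁻¹) := by
    refine ⟨mul_mem (mul_mem (mul_mem hg.1 (L_mem _)) (inv_mem hg.1)) (inv_mem (L_mem _)), fun q => ?_⟩
    -- q = n * g p
    obtain ⟨p, hp⟩ : ∃ p, q = n * g p := ⟨g⁻¹ ((L n)⁻¹ q), by
      rw [pinv]; exact (Li_eq.mp rfl)⟩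
    have e1 : (g * L n * g⁻¹ * (L n)⁻¹) q = g (n * p) := by
      simp only [Equiv.Perm.mul_apply]
      have : (L n)⁻¹ q = g p := by rw [Li_eq, hp]
      rw [this, pinv', L_app]
    have hg' : (R (g p))⁻¹ * g * R p ∈ Hs Q := by
      refine ⟨mul_mem (mul_mem (inv_mem (R_mem _)) hg.1) (R_mem _), ?_⟩
      simp only [Equiv.Perm.mul_apply, R_app, o1]
      rw [Ri_eq, o1]
    obtain ⟨m, hm⟩ := z2_iff (hC n hn) hg'
    have e2 : g (n * p) = act m (n * g p) := by
      simp only [Equiv.Perm.mul_apply, R_app] at hm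
      rw [Ri_eq, act_mul] at hm
      exact hm
    exact ⟨_, (Additive.toMul m).2, by rw [e1, e2, ← hp]; rfl⟩
  set v := g * L n * g⁻¹ * (L n)⁻¹ with hvdef
  have hvg : ∀ q, g (n * q) = v (n * g q) := fun q => by
    simp only [hvdef, Equiv.Perm.mul_apply]
    have : (L n)⁻¹ (n * g q) = g q := by rw [Li_eq]
    rw [this, pinv', L_app]
  have hvK : ∀ k, KK Q k → ∀ q, v (k * q) = k * v q := fun k hk q => by
    have := C1_comm hAB hv hk
    have h2 : (v * L k) q = (L k * v) q := by rw [this]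
    exact h2
  have hv1 : v 1 = act (dd g n) 1 := by
    have h1 := hvg 1
    have h2 := hvK n hn 1
    rw [o2] at h2
    rw [hg.2, o2, h2, dd_spec hg (hC n hn)] at h1
    apply lcancel (a := n)
    rw [← h1, mul_act, o2]
  have hvk : ∀ k, KK Q k → v k = act (dd g n) k := fun k hk => by
    have := hvK k hk 1
    rw [o2, hv1, mul_act, o2] at this
    exact this
  apply dd_uniq
  rw [hvg, dd_spec hg (hC n' hn'), mul_act, g_act hv.1, hvk _ (KK_mul hn hn'), ← act_add, add_comm]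

lemma dd_nn_R {g : Equiv.Perm Q} (hg : g ∈ Hs Q) (a b c : Q) :
    dd g (yy (RR b c) a) = dd g (nn a b c) := by
  have hy := yZ hAB hC (RR_mem b c) a
  obtain ⟨m, hm⟩ := pull1 hy (RR b c a) (b * c)
  rw [yy_eq, RR_eq] at hm
  have : nn a b c = act m (yy (RR b c) a) := rd_of_eq (by rw [act_mul, ← hm])
  rw [this, dd_act hg hy]

lemma dd_nn_M {g : Equiv.Perm Q} (hg : g ∈ Hs Q) (a b c : Q) :
    dd g (yy (MM a c) b) = dd g (nn a b c) := by
  have hy := yZ hAB hC (MM_mem a c) b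
  obtain ⟨m, hm⟩ := pull1 hy (MM a c b) c
  rw [yy_eq] at hm
  obtain ⟨m', hm'⟩ := pull2 hy (MM a c b * c) a
  rw [MM_eq] at hm'
  have : nn a b c = act (m + m') (yy (MM a c) b) :=
    rd_of_eq (by rw [act_mul, hm, mul_act, hm', act_add])
  rw [this, dd_act hg hy]

lemma dd_nn_L {g : Equiv.Perm Q} (hg : g ∈ Hs Q) (a b c : Q) :
    dd g (yy (LL a b) c) = - dd g (nn a b c) := by
  have hy := yZ hAB hC (LL_mem a b) c
  have hK := yy_K (Hs_NG (LL_mem a b)) c
  obtain ⟨m, hm⟩ := pull2 hy (LL a b c) (a * b)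
  rw [yy_eq, LL_eq, ← nn_eq a b c, ← Kassoc hAB hC hK (nn_K a b c), ← act_mul] at hm
  have h1 : act m (yy (LL a b) c * nn a b c) = 1 := by
    apply rcancel (a := (a * b) * c)
    rw [← hm, o1]
  have h2 : dd g (act m (yy (LL a b) c * nn a b c)) = 0 := by rw [h1, dd_at_one hg]
  rw [dd_act hg (hC _ (KK_mul hK (nn_K a b c))), dd_add hAB hC hg hK (nn_K a b c)] at h2
  exact eq_neg_of_add_eq_zero_left h2

lemma dd_kk_T {g : Equiv.Perm Q} (hg : g ∈ Hs Q) (a b : Q) :
    dd g (yy (TT a) b) = dd g (kk b a) := by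
  have hy := yZ hAB hC (TT_mem a) b
  obtain ⟨m, hm⟩ := pull1 hy (TT a b) a
  rw [yy_eq, TT_eq] at hm
  have : kk b a = act m (yy (TT a) b) := rd_of_eq (by rw [act_mul, ← hm])
  rw [this, dd_act hg hy]

lemma dd_kk_neg {g : Equiv.Perm Q} (hg : g ∈ Hs Q) (a b : Q) :
    dd g (kk a b) = - dd g (kk b a) := by
  have h1 : kk a b * kk b a = 1 := by
    apply rcancel (a := a * b)
    rw [Kassoc hAB hC (kk_K a b) (kk_K b a), kk_eq, kk_eq, o1]
  have h2 : dd g (kk a b * kk b a) = 0 := by rw [h1, dd_at_one hg]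
  rw [dd_add hAB hC hg (kk_K a b) (kk_K b a)] at h2
  exact eq_neg_of_add_eq_zero_left h2

/-- pentagon. -/
lemma dd_penta {g : Equiv.Perm Q} (hg : g ∈ Hs Q) (w x y z : Q) :
    dd g (nn x y z) + dd g (nn w (x * y) z) + dd g (nn w x y) =
      dd g (nn w x (y * z)) + dd g (nn (w * x) y z) := by
  have K1 := nn_K x y z
  have K2 := nn_K w (x * y) z
  have K3 := nn_K w x y
  have K4 := nn_K w x (y * z)
  have K5 := nn_K (w * x) y z
  obtain ⟨m, hm⟩ := pull2 (nZ hAB hC x y z) ((x * y) * z) w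
  obtain ⟨m', hm'⟩ := pull1 (nZ hAB hC w x y) ((w * x) * y) z
  rw [nn_eq] at hm hm'
  -- hm : w*(x*(y*z)) = act m (n1 * (w * ((x*y)*z)))
  rw [← nn_eq w (x * y) z, hm', mul_act, mul_act, ← act_add,
    ← Kassoc hAB hC K2 K3, ← Kassoc hAB hC K1 (KK_mul K2 K3), ← act_mul] at hm
  have h4 := nn_eq w x (y * z)
  rw [← nn_eq (w * x) y z, ← Kassoc hAB hC K4 K5, hm] at h4
  have h5 := rcancel h4
  have h6 : dd g (nn w x (y * z) * nn (w * x) y z) =
      dd g (act (m + m') (nn x y z * (nn w (x * y) z * nn w x y))) := by rw [h5]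
  rw [dd_act hg (hC _ (KK_mul K1 (KK_mul K2 K3))), dd_add hAB hC hg K4 K5,
    dd_add hAB hC hg K1 (KK_mul K2 K3), dd_add hAB hC hg K2 K3] at h6
  rw [h6]; abel

/-- hexagon. -/
lemma dd_hexa {g : Equiv.Perm Q} (hg : g ∈ Hs Q) (x a b : Q) :
    dd g (kk x (a * b)) = dd g (nn x a b) - dd g (nn a x b) + dd g (nn a b x) +
      dd g (kk x a) + dd g (kk x b) := by
  have K0 := kk_K x (a * b)
  have K1 := nn_K x a b
  have Ka := kk_K x a
  have K2 := nn_K a x b
  have Kb := kk_K x b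
  have K3 := nn_K a b x
  obtain ⟨m, hm⟩ := pull1 (kZ hAB hC x a) (a * x) b
  obtain ⟨m', hm'⟩ := pull2 (kZ hAB hC x b) (b * x) a
  rw [kk_eq] at hm hm'
  have e1 := nn_eq x a b
  rw [hm, mul_act, ← kk_eq x (a * b), ← Kassoc hAB hC K1 Ka] at e1
  -- e1 : act m ((n1 * ka) * ((a*x)*b)) = k0 * ((a*b)*x)
  have e2 := nn_eq a x b
  rw [hm', ← nn_eq a b x, ← Kassoc hAB hC Kb K3] at e2
  -- e2 : n2 * ((a*x)*b) = act m' ((kb * n3) * ((a*b)*x))
  have e3 : nn a x b * (kk x (a * b) * ((a * b) * x)) =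
      act (m + m') (((nn x a b * kk x a) * (kk x b * nn a b x)) * ((a * b) * x)) := by
    rw [← e1, mul_act, ← Kassoc hAB hC K2 (KK_mul K1 Ka), Kcomm hAB hC K2 (KK_mul K1 Ka),
      Kassoc hAB hC (KK_mul K1 Ka) K2, e2, mul_act, ← act_add,
      ← Kassoc hAB hC (KK_mul K1 Ka) (KK_mul Kb K3)]
  rw [← Kassoc hAB hC K2 K0, ← act_mul] at e3
  have e4 := rcancel e3
  have h6 : dd g (nn a x b * kk x (a * b)) = dd g (act (m + m')
      ((nn x a b * kk x a) * (kk x b * nn a b x))) := by rw [e4]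
  rw [dd_act hg (hC _ (KK_mul (KK_mul K1 Ka) (KK_mul Kb K3))), dd_add hAB hC hg K2 K0,
    dd_add hAB hC hg (KK_mul K1 Ka) (KK_mul Kb K3), dd_add hAB hC hg K1 Ka,
    dd_add hAB hC hg Kb K3] at h6
  rw [← add_right_inj (dd g (nn a x b)), h6]; abel

/-- invariance under `K` in the first argument. -/
lemma dd_inv1 {g : Equiv.Perm Q} (hg : g ∈ Hs Q) {k : Q} (hk : KK Q k) (a b c : Q) :
    dd g (nn (k * a) b c) = dd g (nn a b c) := by
  have kz := hC k hk
  have K1 := nn_K a b c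
  have K2 := nn_K (k * a) b c
  obtain ⟨m, hm⟩ := pull1 kz a (b * c)
  obtain ⟨m1, hm1⟩ := pull1 kz a b
  obtain ⟨m2, hm2⟩ := pull1 kz (a * b) c
  have e := nn_eq (k * a) b c
  rw [hm, hm1, act_mul, hm2, ← nn_eq a b c, ← Kassoc hAB hC hk K1, mul_act, mul_act,
    ← Kassoc hAB hC K2 hk, ← act_add, ← act_mul ((a * b) * c) (m1 + m2) (nn (k * a) b c * k),
    ← act_mul ((a * b) * c) m (k * nn a b c)] at e
  have e4 := rcancel e
  have h6 : dd g (act (m1 + m2) (nn (k * a) b c * k)) = dd g (act m (k * nn a b c)) := by rw [e4]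
  rw [dd_act hg (hC _ (KK_mul K2 hk)), dd_act hg (hC _ (KK_mul hk K1)),
    dd_add hAB hC hg K2 hk, dd_add hAB hC hg hk K1, add_comm] at h6
  exact add_left_cancel h6

lemma dd_swap {g : Equiv.Perm Q} (hg : g ∈ Hs Q) (u v p q : Q) :
    dd g (nn (u * v) p q) = dd g (nn (v * u) p q) := by
  rw [← kk_eq u v, dd_inv1 hAB hC hg (kk_K u v)]

end stage1

end Pool.Agent.W974.Aim
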