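import Pool.Agent.W974.Aim2

set_option autoImplicit false
set_option linter.unusedSectionVars false

namespace Pool.Agent.W974.Aim

open Lp

variable {Q : Type} [Lp Q]

noncomputable def F5 (p q a b c : Q) : MZ Q := dd (LL p q) (nn a b c)
noncomputable def F4 (a b c d : Q) : MZ Q := dd (TT c) (nn a b d)

section stage1
variable (hAB : AB Q) (hC : C3 Q)
include hAB hC

lemma F5_s1 (p q a b c : Q) : F5 p q a b c = F5 a b p q c := by
  have h := dd_sym hAB hC (LL_mem p q) (LL_mem a b) c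
  rw [dd_nn_L hAB hC (LL_mem p q), dd_nn_L hAB hC (LL_mem a b)] at h
  exact neg_injective h

lemma F5_r (p q a b c : Q) : dd (RR b c) (nn p q a) = - F5 p q a b c := by
  have h := dd_sym hAB hC (RR_mem b c) (LL_mem p q) a
  rw [dd_nn_L hAB hC (RR_mem b c), dd_nn_R hAB hC (LL_mem p q)] at h
  rw [F5, ← h, neg_neg]

lemma F5_m (p q a b c : Q) : dd (MM a c) (nn p q b) = - F5 p q a b c := by
  have h := dd_sym hAB hC (MM_mem a c) (LL_mem p q) b
  rw [dd_nn_L hAB hC (MM_mem a c), dd_nn_M hAB hC (LL_mem p q)] at h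
  rw [F5, ← h, neg_neg]

lemma F5_s2 (x y z b c : Q) : F5 x y z b c = F5 x b c y z := by
  have h := dd_sym hAB hC (RR_mem b c) (RR_mem y z) x
  rw [dd_nn_R hAB hC (RR_mem b c), dd_nn_R hAB hC (RR_mem y z), F5_r hAB hC, F5_r hAB hC] at h
  exact neg_injective h

lemma F5_s3 (x y z b c : Q) : F5 x y z b c = F5 y b x c z := by
  have h := dd_sym hAB hC (RR_mem b c) (MM_mem x z) y
  rw [dd_nn_M hAB hC (RR_mem b c), dd_nn_R hAB hC (MM_mem x z), F5_r hAB hC, F5_m hAB hC] at h
  exact neg_injective h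

lemma F5_cyc (p q a b c : Q) : F5 p q a b c = F5 p q b c a := by
  rw [F5_s1 hAB hC, F5_s3 hAB hC, F5_s2 hAB hC, F5_s1 hAB hC]

lemma F5_add (p q u v b c : Q) : F5 p q (u * v) b c = F5 p q u b c + F5 p q v b c :=
  additive_of_cocycle (fun x y z => F5 p q x y z) (fun x y z => F5_cyc hAB hC p q x y z)
    (fun w x y z => dd_penta hAB hC (LL_mem p q) w x y z)
    (fun u v b c => dd_swap hAB hC (LL_mem p q) u v b c) u v b c

lemma F4_t1 (a b c d : Q) : dd (LL a b) (kk d c) = - F4 a b c d := by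
  have h := dd_sym hAB hC (TT_mem c) (LL_mem a b) d
  rw [dd_nn_L hAB hC (TT_mem c), dd_kk_T hAB hC (LL_mem a b)] at h
  rw [F4, ← h]

lemma F4_a1 (a b c d : Q) : F4 a b c d = - F4 a b d c := by
  have h1 := F4_t1 hAB hC a b c d
  have h2 := F4_t1 hAB hC a b d c
  have h3 := dd_kk_neg hAB hC (LL_mem a b) d c
  rw [h1, h2] at h3
  exact neg_injective h3

lemma F4_r (a b c d : Q) : dd (RR b d) (kk a c) = F4 a b c d := by
  have h := dd_sym hAB hC (TT_mem c) (RR_mem b d) a
  rw [dd_nn_R hAB hC (TT_mem c), dd_kk_T hAB hC (RR_mem b d)] at h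
  exact h.symm

lemma F4_a2 (a b c d : Q) : F4 a b c d = - F4 c b a d := by
  have h1 := F4_r hAB hC a b c d
  have h2 := F4_r hAB hC c b a d
  have h3 := dd_kk_neg hAB hC (RR_mem b d) a c
  rw [h1, h2] at h3
  exact h3

lemma F4_m (a b c d : Q) : dd (MM a d) (kk b c) = F4 a b c d := by
  have h := dd_sym hAB hC (TT_mem c) (MM_mem a d) b
  rw [dd_nn_M hAB hC (TT_mem c), dd_kk_T hAB hC (MM_mem a d)] at h
  exact h.symm

lemma F4_a3 (a b c d : Q) : F4 a b c d = - F4 a c b d := by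
  have h1 := F4_m hAB hC a b c d
  have h2 := F4_m hAB hC a c b d
  have h3 := dd_kk_neg hAB hC (MM_mem a d) b c
  rw [h1, h2] at h3
  exact h3

lemma F4_cyc (a b c d : Q) : F4 a b c d = F4 b d c a := by
  rw [F4_a2 hAB hC a b c d, F4_a3 hAB hC c b a d, F4_a1 hAB hC c a b d, F4_a2 hAB hC c a d b,
    F4_a3 hAB hC d a c b, F4_a1 hAB hC d c a b, F4_a2 hAB hC d c b a, F4_a3 hAB hC b c d a]
  simp only [neg_neg]

lemma F4_add1 (u v b c d : Q) : F4 (u * v) b c d = F4 u b c d + F4 v b c d :=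
  additive_of_cocycle (fun x y z => F4 x y c z) (fun x y z => F4_cyc hAB hC x y c z)
    (fun w x y z => dd_penta hAB hC (TT_mem c) w x y z)
    (fun u v b d => dd_swap hAB hC (TT_mem c) u v b d) u v b d

lemma F4_add3 (u v a b d : Q) : F4 a b (u * v) d = F4 a b u d + F4 a b v d := by
  rw [F4_a2 hAB hC a b (u * v) d, F4_add1 hAB hC, F4_a2 hAB hC a b u d, F4_a2 hAB hC a b v d]
  abel

lemma F4_add4 (u v a b c : Q) : F4 a b c (u * v) = F4 a b c u + F4 a b c v := by
  rw [F4_a1 hAB hC a b c (u * v), F4_add3 hAB hC, F4_a1 hAB hC a b c u, F4_a1 hAB hC a b c v]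
  abel

lemma F4_add2 (u v a c d : Q) : F4 a (u * v) c d = F4 a u c d + F4 a v c d := by
  rw [F4_a3 hAB hC a (u * v) c d, F4_add3 hAB hC, F4_a3 hAB hC a u c d, F4_a3 hAB hC a v c d]
  abel

/-- the sum relation. -/
lemma F5_sum (p q x a b : Q) : F5 p q x a b - F5 p q a x b + F5 p q a b x = 0 := by
  have h := dd_hexa hAB hC (LL_mem p q) x a b
  rw [F4_t1 hAB hC, F4_t1 hAB hC, F4_t1 hAB hC, F4_add3 hAB hC] at h
  simp only [F5]
  rw [← add_left_inj (-F4 p q a x + -F4 p q b x), zero_add, ← add_assoc, ← h]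
  abel

lemma F5_two (p q x a b : Q) : F5 p q a x b = F5 p q x a b + F5 p q x a b := by
  have h := F5_sum hAB hC p q x a b
  rw [F5_cyc hAB hC p q a b x, F5_cyc hAB hC p q b x a] at h
  rw [← sub_eq_zero]
  rw [← neg_eq_zero, ← h]
  abel

lemma F5_three (p q x a b : Q) : F5 p q x a b + F5 p q x a b + F5 p q x a b = 0 := by
  have h1 := F5_two hAB hC p q x a b
  have h2 := F5_two hAB hC p q a x b
  rw [h1] at h2
  have : F5 p q x a b + (F5 p q x a b + F5 p q x a b + F5 p q x a b) = F5 p q x a b := by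
    rw [← add_assoc, ← add_assoc]
    exact (by rw [← add_assoc] at h2; exact h2.symm)
  simpa using this

lemma F5_alt (p q x a b : Q) : F5 p q a x b = - F5 p q x a b := by
  rw [F5_two hAB hC]
  have := F5_three hAB hC p q x a b
  exact eq_neg_of_add_eq_zero_left this

lemma F5_rep (p q x b : Q) : F5 p q x x b = 0 := by
  have h1 := F5_alt hAB hC p q x x b
  have h2 := F5_three hAB hC p q x x b
  rw [add_assoc] at h2
  have h3 : F5 p q x x b + F5 p q x x b = 0 := by
    nth_rewrite 1 [h1]; simp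
  rw [h3, add_zero] at h2
  exact h2

end stage1

end Pool.Agent.W974.Aim
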