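import Pool.Agent.W974.Aim3

set_option autoImplicit false
set_option linter.unusedSectionVars false

namespace Pool.Agent.W974.Aim

open Lp

variable {Q : Type} [Lp Q]

section inv
variable {M : Type} [AddCommGroup M] (φ : Q → M) (h : ∀ u v, φ (u * v) = φ u + φ v)
include h
lemma ad_LL (a b q : Q) : φ (LL a b q) = φ q := by
  have := congrArg φ (LL_eq a b q)
  rw [h, h, h, h, add_assoc, add_left_cancel_iff, add_left_cancel_iff] at this
  exact this
lemma ad_RR (a b q : Q) : φ (RR a b q) = φ q := by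
  have := congrArg φ (RR_eq a b q)
  rw [h, h, h, h, add_assoc, add_left_inj] at this
  exact this
lemma ad_MM (a b q : Q) : φ (MM a b q) = φ q := by
  have := congrArg φ (MM_eq a b q)
  rw [h, h, h, h, ← add_assoc, add_left_inj, add_right_inj] at this
  exact this
lemma ad_TT (a q : Q) : φ (TT a q) = φ q := by
  have := congrArg φ (TT_eq a q)
  rw [h, h, add_comm (φ a), add_left_inj] at this
  exact this
lemma ad_nn (a b c : Q) : φ (nn a b c) = 0 := by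
  have := congrArg φ (nn_eq a b c)
  rw [h, h, h, h, h, add_assoc (φ a)] at this
  exact add_eq_right.mp this
lemma ad_kk (a b : Q) : φ (kk a b) = 0 := by
  have := congrArg φ (kk_eq a b)
  rw [h, h, h, add_comm (φ a)] at this
  exact add_eq_right.mp this
end inv

lemma kk_self (a : Q) : kk a a = 1 := rd_self _

lemma WW_dec (a b : Q) : WW a b = RR a b * TT a * (MM a b)⁻¹ := by
  unfold WW RR TT MM; group

/-- conjugated map. -/
def GG (g : Equiv.Perm Q) (q : Q) : Equiv.Perm Q := (R (g q))⁻¹ * g * R q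

lemma GG_mem {g : Equiv.Perm Q} (hg : g ∈ MG Q) (q : Q) : GG g q ∈ Hs Q :=
  ⟨mul_mem (mul_mem (inv_mem (R_mem _)) hg) (R_mem _), by
    simp only [GG, Equiv.Perm.mul_apply, R_app, o1]
    rw [Ri_eq, o1]⟩

lemma GG_eq (g : Equiv.Perm Q) (q x : Q) : GG g q x * g q = g (x * q) := by
  simp only [GG, Equiv.Perm.mul_apply, R_app]
  exact (Ri_eq.mp rfl).symm

section stage1
variable (hAB : AB Q) (hC : C3 Q)
include hAB hC

lemma F5_a12 (p q a b c : Q) : F5 p q a b c = - F5 q p a b c := by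
  rw [F5_s1 hAB hC p q a b c, F5_alt hAB hC a b q p c, F5_s1 hAB hC a b q p c]
lemma F5_a23 (p q a b c : Q) : F5 p q a b c = - F5 p a q b c := by
  rw [F5_s2 hAB hC p q a b c, F5_s3 hAB hC p b c q a, F5_s1 hAB hC b q p a c]
  exact F5_alt hAB hC p a q b c
lemma F5_a34 (p q a b c : Q) : F5 p q a b c = - F5 p q b a c := F5_alt hAB hC p q b a c
lemma F5_a45 (p q a b c : Q) : F5 p q a b c = - F5 p q a c b := by
  rw [F5_s3 hAB hC p q a b c, F5_s1 hAB hC q b p c a, F5_alt hAB hC p c b q a,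
    F5_s2 hAB hC p c b q a]
lemma F5_rot (p r x y z : Q) : F5 p r x y z = F5 x y z p r := by
  rw [F5_s1 hAB hC p r x y z, F5_s2 hAB hC x y p r z, F5_s3 hAB hC x r z y p,
    F5_s1 hAB hC r y x p z, F5_s2 hAB hC x p r y z]

lemma F5_add3 (u v p q a b : Q) : F5 p q (u * v) a b = F5 p q u a b + F5 p q v a b :=
  F5_add hAB hC p q u v a b
lemma F5_add4 (u v p q a b : Q) : F5 p q a (u * v) b = F5 p q a u b + F5 p q a v b := by
  rw [F5_a34 hAB hC p q a (u * v) b, F5_add3 hAB hC, F5_a34 hAB hC p q a u b,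
    F5_a34 hAB hC p q a v b]
  abel
lemma F5_add5 (u v p q a b : Q) : F5 p q a b (u * v) = F5 p q a b u + F5 p q a b v := by
  rw [F5_a45 hAB hC p q a b (u * v), F5_add4 hAB hC, F5_a45 hAB hC p q a b u,
    F5_a45 hAB hC p q a b v]
  abel

-- vanishing on repeated arguments
lemma F5_z34 (p q x b : Q) : F5 p q x x b = 0 := F5_rep hAB hC p q x b
lemma F5_z35 (p q x b : Q) : F5 p q x b x = 0 := by
  rw [F5_a45 hAB hC, F5_z34 hAB hC, neg_zero]
lemma F5_z24 (p x a b : Q) : F5 p x a x b = 0 := by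
  rw [F5_a23 hAB hC, F5_z34 hAB hC, neg_zero]
lemma F5_z25 (p x a b : Q) : F5 p x a b x = 0 := by
  rw [F5_a23 hAB hC, F5_z35 hAB hC, neg_zero]
lemma F5_z14 (x p a b : Q) : F5 x p a x b = 0 := by
  rw [F5_a12 hAB hC, F5_z24 hAB hC, neg_zero]
lemma F5_z15 (x p a b : Q) : F5 x p a b x = 0 := by
  rw [F5_a12 hAB hC, F5_z25 hAB hC, neg_zero]

lemma F4_z34 (a b c : Q) : F4 a b c c = 0 := by
  have h := F4_t1 hAB hC a b c c
  rw [kk_self, dd_at_one (LL_mem a b)] at h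
  exact neg_eq_zero.mp h.symm
lemma F4_z13 (a b d : Q) : F4 a b a d = 0 := by
  have h := F4_r hAB hC a b a d
  rw [kk_self, dd_at_one (RR_mem b d)] at h
  exact h.symm
lemma F4_z23 (a b d : Q) : F4 a b b d = 0 := by
  have h := F4_m hAB hC a b b d
  rw [kk_self, dd_at_one (MM_mem a d)] at h
  exact h.symm
lemma F4_z14 (a b c : Q) : F4 a b c a = 0 := by
  rw [F4_a1 hAB hC, F4_z13 hAB hC, neg_zero]
lemma F4_z24 (a b c : Q) : F4 a b c b = 0 := by
  rw [F4_a1 hAB hC, F4_z23 hAB hC, neg_zero]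

lemma dd_WW_nn (a b x y z : Q) : dd (WW a b) (nn x y z) = F4 x y a z + F5 x y z a b := by
  have hz := nZ hAB hC x y z
  rw [WW_dec, dd_mul (mul_mem (RR_mem a b) (TT_mem a)) (inv_mem (MM_mem a b)) hz,
    dd_mul (RR_mem a b) (TT_mem a) hz, dd_inv (MM_mem a b) hz, F5_r hAB hC, F5_m hAB hC,
    F5_a34 hAB hC x y a z b]
  have h3 := F5_three hAB hC x y z a b
  have h4 : F5 x y z a b + F5 x y z a b = - F5 x y z a b := eq_neg_of_add_eq_zero_left h3
  simp only [neg_neg]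
  change -F5 x y z a b + F4 x y a z + -F5 x y z a b = _
  have : -F5 x y z a b + F4 x y a z + -F5 x y z a b =
    F4 x y a z - (F5 x y z a b + F5 x y z a b) := by abel
  rw [this, h4, sub_neg_eq_add]

lemma dd_WW_kk (a b x y : Q) :
    dd (WW a b) (kk x y) = F4 x a y b + F4 x a y b + dd (TT a) (kk x y) := by
  have hz := kZ hAB hC x y
  rw [WW_dec, dd_mul (mul_mem (RR_mem a b) (TT_mem a)) (inv_mem (MM_mem a b)) hz,
    dd_mul (RR_mem a b) (TT_mem a) hz, dd_inv (MM_mem a b) hz, F4_r hAB hC, F4_m hAB hC]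
  have : F4 a x y b = - F4 x a y b := by
    rw [F4_a2 hAB hC a x y b, F4_a3 hAB hC y x a b, F4_a2 hAB hC y a x b]
    simp
  rw [this]; abel


lemma GG_LL (p r q : Q) :
    GG (LL p r) q = (WW (p * r) (LL p r q))⁻¹ * WW p (r * q) * WW r q := by
  have e := LL_eq p r q
  unfold GG WW
  generalize LL p r q = q' at e ⊢
  rw [e]; unfold LL; group

lemma GG_RR (b c q : Q) :
    GG (RR b c) q = (RR (RR b c q) (b * c))⁻¹ * RR (q * b) c * RR q b := by
  have e := RR_eq b c q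
  unfold GG
  generalize RR b c q = q' at e ⊢
  unfold RR
  rw [e]; group

lemma GG_TT (c q : Q) : GG (TT c) q = (RR (TT c q) c)⁻¹ * WW c q := by
  have e := TT_eq c q
  unfold GG WW
  generalize TT c q = q' at e ⊢
  unfold RR TT
  rw [e]; group

lemma GG_MM (a c q : Q) :
    GG (MM a c) q = (RR (MM a c q) c)⁻¹ * (WW a (MM a c q * c))⁻¹ * RR (a * q) c * WW a q := by
  have e := MM_eq a c q
  unfold GG WW
  generalize MM a c q = q' at e ⊢
  unfold RR MM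
  rw [e]; group

/-- `dd (TT a) (kk x y)` -/
lemma F3_s (a x y : Q) : dd (TT a) (kk x y) = dd (TT y) (kk x a) := by
  have h := dd_sym hAB hC (TT_mem a) (TT_mem y) x
  rwa [dd_kk_T hAB hC (TT_mem a), dd_kk_T hAB hC (TT_mem y)] at h

lemma F3_add (p r x y : Q) : dd (TT (p * r)) (kk x y) = dd (TT p) (kk x y) + dd (TT r) (kk x y) +
    (F4 x p y r + F4 x p y r + F4 x p y r) := by
  rw [F3_s hAB hC (p * r) x y, dd_hexa hAB hC (TT_mem y), F3_s hAB hC p x y, F3_s hAB hC r x y]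
  change F4 x p y r - F4 p x y r + F4 p r y x + _ + _ = _
  have h1 : F4 p x y r = - F4 x p y r := by
    rw [F4_a2 hAB hC p x y r, F4_a3 hAB hC y x p r, F4_a2 hAB hC y p x r]; simp
  have h2 : F4 p r y x = F4 x p y r := by
    rw [F4_a1 hAB hC p r y x, F4_a2 hAB hC p r x y, F4_a3 hAB hC x r p y, F4_a1 hAB hC x p r y]
    simp
  rw [h1, h2]; abel

lemma inv4 (x y z p : Q) : ∀ u v, F5 x y z p (u * v) = F5 x y z p u + F5 x y z p v :=
  fun u v => F5_add5 hAB hC u v x y z p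

-- Mult: `dd (GG g q) n = dd g n`
lemma mu_LL_nn (p r q x y z : Q) : dd (GG (LL p r) q) (nn x y z) = dd (LL p r) (nn x y z) := by
  have hz := nZ hAB hC x y z
  rw [GG_LL hAB hC, dd_mul (mul_mem (inv_mem (WW_mem _ _)) (WW_mem _ _)) (WW_mem _ _) hz,
    dd_mul (inv_mem (WW_mem _ _)) (WW_mem _ _) hz, dd_inv (WW_mem _ _) hz,
    dd_WW_nn hAB hC, dd_WW_nn hAB hC, dd_WW_nn hAB hC,
    ad_LL (fun t => F5 x y z (p * r) t) (fun u v => F5_add5 hAB hC u v x y z _),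
    F5_add5 hAB hC, F5_add4 hAB hC, F4_add3 hAB hC]
  change _ = F5 p r x y z
  rw [F5_rot hAB hC p r x y z]; abel

lemma mu_LL_kk (p r q x y : Q) : dd (GG (LL p r) q) (kk x y) = dd (LL p r) (kk x y) := by
  have hz := kZ hAB hC x y
  rw [GG_LL hAB hC, dd_mul (mul_mem (inv_mem (WW_mem _ _)) (WW_mem _ _)) (WW_mem _ _) hz,
    dd_mul (inv_mem (WW_mem _ _)) (WW_mem _ _) hz, dd_inv (WW_mem _ _) hz,
    dd_WW_kk hAB hC, dd_WW_kk hAB hC, dd_WW_kk hAB hC,
    ad_LL (fun t => F4 x (p * r) y t) (fun u v => F4_add4 hAB hC u v _ _ _),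
    F4_add4 hAB hC, F4_add2 hAB hC, F3_add hAB hC, F4_t1 hAB hC]
  have h2 : F4 p r y x = F4 x p y r := by
    rw [F4_a1 hAB hC p r y x, F4_a2 hAB hC p r x y, F4_a3 hAB hC x r p y, F4_a1 hAB hC x p r y]
    simp
  rw [h2]; abel

lemma mu_RR_nn (b c q x y z : Q) : dd (GG (RR b c) q) (nn x y z) = dd (RR b c) (nn x y z) := by
  have hz := nZ hAB hC x y z
  rw [GG_RR hAB hC, dd_mul (mul_mem (inv_mem (RR_mem _ _)) (RR_mem _ _)) (RR_mem _ _) hz,
    dd_mul (inv_mem (RR_mem _ _)) (RR_mem _ _) hz, dd_inv (RR_mem _ _) hz,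
    F5_r hAB hC, F5_r hAB hC, F5_r hAB hC, F5_r hAB hC,
    ad_RR (fun t => F5 x y z t (b * c)) (fun u v => F5_add4 hAB hC u v x y z _),
    F5_add5 hAB hC, F5_add4 hAB hC]
  abel

lemma mu_RR_kk (b c q x y : Q) : dd (GG (RR b c) q) (kk x y) = dd (RR b c) (kk x y) := by
  have hz := kZ hAB hC x y
  rw [GG_RR hAB hC, dd_mul (mul_mem (inv_mem (RR_mem _ _)) (RR_mem _ _)) (RR_mem _ _) hz,
    dd_mul (inv_mem (RR_mem _ _)) (RR_mem _ _) hz, dd_inv (RR_mem _ _) hz,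
    F4_r hAB hC, F4_r hAB hC, F4_r hAB hC, F4_r hAB hC,
    ad_RR (fun t => F4 x t y (b * c)) (fun u v => F4_add2 hAB hC u v _ _ _),
    F4_add4 hAB hC, F4_add2 hAB hC]
  abel

lemma mu_TT_nn (c q x y z : Q) : dd (GG (TT c) q) (nn x y z) = dd (TT c) (nn x y z) := by
  have hz := nZ hAB hC x y z
  rw [GG_TT hAB hC, dd_mul (inv_mem (RR_mem _ _)) (WW_mem _ _) hz, dd_inv (RR_mem _ _) hz,
    F5_r hAB hC, dd_WW_nn hAB hC,
    ad_TT (fun t => F5 x y z t c) (fun u v => F5_add4 hAB hC u v x y z _)]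
  rw [F5_a45 hAB hC x y z c q]
  change _ = F4 x y c z
  abel

lemma mu_TT_kk (c q x y : Q) : dd (GG (TT c) q) (kk x y) = dd (TT c) (kk x y) +
    (F4 x c y q + F4 x c y q + F4 x c y q) := by
  have hz := kZ hAB hC x y
  rw [GG_TT hAB hC, dd_mul (inv_mem (RR_mem _ _)) (WW_mem _ _) hz, dd_inv (RR_mem _ _) hz,
    F4_r hAB hC, dd_WW_kk hAB hC,
    ad_TT (fun t => F4 x t y c) (fun u v => F4_add2 hAB hC u v _ _ _)]
  have h2 : F4 x q y c = - F4 x c y q := by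
    rw [F4_a1 hAB hC x q y c, F4_a3 hAB hC x q c y, F4_a1 hAB hC x c q y]; simp
  rw [h2]; abel

lemma mu_MM_nn (a c q x y z : Q) : dd (GG (MM a c) q) (nn x y z) = dd (MM a c) (nn x y z) := by
  have hz := nZ hAB hC x y z
  rw [GG_MM hAB hC, dd_mul (mul_mem (mul_mem (inv_mem (RR_mem _ _)) (inv_mem (WW_mem _ _)))
      (RR_mem _ _)) (WW_mem _ _) hz,
    dd_mul (mul_mem (inv_mem (RR_mem _ _)) (inv_mem (WW_mem _ _))) (RR_mem _ _) hz,
    dd_mul (inv_mem (RR_mem _ _)) (inv_mem (WW_mem _ _)) hz, dd_inv (RR_mem _ _) hz,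
    dd_inv (WW_mem _ _) hz, F5_r hAB hC, F5_r hAB hC, dd_WW_nn hAB hC, dd_WW_nn hAB hC,
    F5_m hAB hC, F5_add5 hAB hC,
    ad_MM (fun t => F5 x y z t c) (fun u v => F5_add4 hAB hC u v x y z _),
    ad_MM (fun t => F5 x y z a t) (fun u v => F5_add5 hAB hC u v x y z _), F5_add4 hAB hC,
    F5_a34 hAB hC x y a z c]
  have h3 := F5_three hAB hC x y z a c
  have h4 : F5 x y z a c = - (F5 x y z a c + F5 x y z a c) :=
    eq_neg_of_add_eq_zero_right h3
  conv_rhs => rw [h4]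
  abel

lemma mu_MM_kk (a c q x y : Q) : dd (GG (MM a c) q) (kk x y) = dd (MM a c) (kk x y) := by
  have hz := kZ hAB hC x y
  rw [GG_MM hAB hC, dd_mul (mul_mem (mul_mem (inv_mem (RR_mem _ _)) (inv_mem (WW_mem _ _)))
      (RR_mem _ _)) (WW_mem _ _) hz,
    dd_mul (mul_mem (inv_mem (RR_mem _ _)) (inv_mem (WW_mem _ _))) (RR_mem _ _) hz,
    dd_mul (inv_mem (RR_mem _ _)) (inv_mem (WW_mem _ _)) hz, dd_inv (RR_mem _ _) hz,
    dd_inv (WW_mem _ _) hz, F4_r hAB hC, F4_r hAB hC, dd_WW_kk hAB hC, dd_WW_kk hAB hC,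
    F4_m hAB hC, F4_add4 hAB hC,
    ad_MM (fun t => F4 x t y c) (fun u v => F4_add2 hAB hC u v _ _ _),
    ad_MM (fun t => F4 x a y t) (fun u v => F4_add4 hAB hC u v _ _ _), F4_add2 hAB hC]
  have : F4 a x y c = - F4 x a y c := by
    rw [F4_a2 hAB hC a x y c, F4_a3 hAB hC y x a c, F4_a2 hAB hC y a x c]
    simp
  rw [this]; abel


lemma dd_fix {g : Equiv.Perm Q} (hg : g ∈ Hs Q) {n : Q} (hn : Z2 n) (h : dd g n = 0) : g n = n := by
  rw [dd_spec hg hn, h, act_zero]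

lemma X1 {g : Equiv.Perm Q} (hg : g ∈ Hs Q) {n : Q} (hn : Z2 n) (q : Q) (m : MZ Q)
    (h : dd (GG g q) n = dd g n + m) : g (n * q) = act m (g n * g q) := by
  rw [← GG_eq g q n, dd_spec (GG_mem hg.1 q) hn, h, dd_spec hg hn, add_comm, act_add, act_mul]

lemma X1' {g : Equiv.Perm Q} (hg : g ∈ Hs Q) {n : Q} (hn : Z2 n) (q : Q)
    (h : dd (GG g q) n = dd g n) : g (n * q) = g n * g q := by
  rw [X1 hAB hC hg hn q 0 (by rw [h, add_zero]), act_zero]

lemma X2 (a b c : Q) : nn a b c = yy (RR b c) a := by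
  have hy := yZ hAB hC (RR_mem b c) a
  have h1 : nn a b c = RR (RR b c a) (b * c) (yy (RR b c) a) := by
    apply rd_of_eq
    rw [← RR_eq b c a, RR_eq (RR b c a) (b * c), yy_eq]
  rw [h1]
  apply dd_fix hAB hC (RR_mem _ _) hy
  rw [dd_nn_R hAB hC (RR_mem _ _), F5_r hAB hC,
    ad_RR (fun t => F5 a b c t (b * c)) (fun u v => F5_add4 hAB hC u v _ _ _ _),
    F5_z14 hAB hC, neg_zero]

lemma X3 (a b c : Q) : nn a b c = yy (MM a c) b := by
  have hy := yZ hAB hC (MM_mem a c) b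
  have h1 : nn a b c = WW a (MM a c b * c) (RR (MM a c b) c (yy (MM a c) b)) := by
    apply rd_of_eq
    rw [← MM_eq a c b, WW_eq, RR_eq, yy_eq]
  rw [h1]
  have h2 : RR (MM a c b) c (yy (MM a c) b) = yy (MM a c) b := by
    apply dd_fix hAB hC (RR_mem _ _) hy
    rw [dd_nn_M hAB hC (RR_mem _ _), F5_r hAB hC, F5_z35 hAB hC, neg_zero]
  rw [h2]
  apply dd_fix hAB hC (WW_mem _ _) hy
  rw [dd_nn_M hAB hC (WW_mem _ _), dd_WW_nn hAB hC, F4_z13 hAB hC, F5_z14 hAB hC, add_zero]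

lemma X4 (a b c : Q) : yy (LL a b) c * nn a b c = 1 := by
  have hy := yZ hAB hC (LL_mem a b) c
  have hK := yy_K (Hs_NG (LL_mem a b)) c
  have h1 : WW (a * b) (LL a b c) (yy (LL a b) c) * nn a b c = 1 := by
    apply rcancel (a := (a * b) * c)
    rw [Kassoc hAB hC (KK_app (Hs_NG (WW_mem _ _)) hK) (nn_K a b c), nn_eq, ← LL_eq a b c, WW_eq, yy_eq,
      o1]
  have h2 : WW (a * b) (LL a b c) (yy (LL a b) c) = yy (LL a b) c := by
    apply dd_fix hAB hC (WW_mem _ _) hy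
    rw [dd_nn_L hAB hC (WW_mem _ _), dd_WW_nn hAB hC, F4_add3 hAB hC, F4_z13 hAB hC,
      F4_z23 hAB hC, ad_LL (fun t => F5 a b c (a * b) t) (fun u v => F5_add5 hAB hC u v _ _ _ _),
      F5_z35 hAB hC]
    simp
  rw [h2] at h1
  exact h1

lemma X5 (b a : Q) : kk b a = yy (TT a) b := by
  have hy := yZ hAB hC (TT_mem a) b
  have h1 : kk b a = RR (TT a b) a (yy (TT a) b) := by
    apply rd_of_eq
    rw [← TT_eq a b, RR_eq, yy_eq]
  rw [h1]
  apply dd_fix hAB hC (RR_mem _ _) hy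
  rw [dd_kk_T hAB hC (RR_mem _ _), F4_r hAB hC, F4_z34 hAB hC]

lemma X6 (a b : Q) : kk a b * kk b a = 1 := by
  apply rcancel (a := a * b)
  rw [Kassoc hAB hC (kk_K a b) (kk_K b a), kk_eq, kk_eq, o1]

lemma X7a (w x y z : Q) : dd (WW w ((x * y) * z)) (nn x y z) = dd (TT w) (nn x y z) := by
  rw [dd_WW_nn hAB hC, F5_add5 hAB hC, F5_add5 hAB hC, F5_z15 hAB hC, F5_z25 hAB hC,
    F5_z35 hAB hC]
  simp only [add_zero]
  rfl

lemma X7 (w x y z : Q) : nn w x (y * z) * nn (w * x) y z =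
    WW w ((x * y) * z) (nn x y z) * (nn w (x * y) z * nn w x y) := by
  have K1 := KK_app (Hs_NG (WW_mem w ((x * y) * z))) (nn_K x y z)
  have K2 := nn_K w (x * y) z
  have K3 := nn_K w x y
  have K4 := nn_K w x (y * z)
  have K5 := nn_K (w * x) y z
  have h0 : RR ((w * x) * y) z (nn w x y) = nn w x y := by
    apply dd_fix hAB hC (RR_mem _ _) (nZ hAB hC w x y)
    rw [F5_r hAB hC, F5_add4 hAB hC, F5_add4 hAB hC, F5_z14 hAB hC, F5_z24 hAB hC,
      F5_z34 hAB hC]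
    simp
  apply rcancel (a := ((w * x) * y) * z)
  rw [Kassoc hAB hC K4 K5, nn_eq, nn_eq, Kassoc hAB hC K1 (KK_mul K2 K3), Kassoc hAB hC K2 K3]
  have h3 : nn w x y * (((w * x) * y) * z) = (w * (x * y)) * z := by
    nth_rewrite 1 [← h0]
    rw [RR_eq, nn_eq]
  rw [h3, nn_eq, WW_eq, nn_eq]

lemma X8a (a b x : Q) : dd (WW a (b * x)) (kk x b) = dd (TT a) (kk x b) := by
  rw [dd_WW_kk hAB hC, F4_add4 hAB hC, F4_z34 hAB hC, F4_z14 hAB hC]
  simp

lemma X8 (x a b : Q) : nn a x b * kk x (a * b) =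
    nn x a b * (nn a b x * (kk x a * WW a (b * x) (kk x b))) := by
  have Kw := KK_app (Hs_NG (WW_mem a (b * x))) (kk_K x b)
  have K0 := kk_K x (a * b)
  have K1 := nn_K x a b
  have Ka := kk_K x a
  have K2 := nn_K a x b
  have K3 := nn_K a b x
  have h0 : RR (a * x) b (kk x a) = kk x a := by
    apply dd_fix hAB hC (RR_mem _ _) (kZ hAB hC x a)
    rw [F4_r hAB hC, F4_add2 hAB hC, F4_z23 hAB hC]
    have : F4 x x a b = 0 := by rw [F4_a3 hAB hC, F4_z13 hAB hC, neg_zero]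
    rw [this, add_zero]
  apply rcancel (a := (a * b) * x)
  rw [Kassoc hAB hC K2 K0, kk_eq, ← nn_eq x a b]
  have h3 : kk x a * ((a * x) * b) = (x * a) * b := by
    nth_rewrite 1 [← h0]
    rw [RR_eq, kk_eq]
  rw [← h3, ← Kassoc hAB hC K1 Ka, ← Kassoc hAB hC K2 (KK_mul K1 Ka),
    Kcomm hAB hC K2 (KK_mul K1 Ka), Kassoc hAB hC (KK_mul K1 Ka) K2, nn_eq a x b]
  have h4 : a * (x * b) = WW a (b * x) (kk x b) * (nn a b x * ((a * b) * x)) := by
    rw [nn_eq, WW_eq, kk_eq]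
  rw [h4, ← Kassoc hAB hC Kw K3, ← Kassoc hAB hC (KK_mul K1 Ka) (KK_mul Kw K3)]
  congr 1
  rw [Kcomm hAB hC Kw K3, Kassoc hAB hC K1 Ka, ← Kassoc hAB hC Ka K3, Kcomm hAB hC Ka K3,
    Kassoc hAB hC K3 Ka]

lemma X9 {h : Equiv.Perm Q} (hh : h ∈ Hs Q) {k : Q} (hk : KK Q k) (a : Q) :
    yy h (k * a) * GG h a k = k * yy h a := by
  have K1 := yy_K (Hs_NG hh) (k * a)
  have K2 := KK_app (Hs_NG (GG_mem hh.1 a)) hk
  have K3 := yy_K (Hs_NG hh) a
  apply rcancel (a := h a)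
  rw [Kassoc hAB hC K1 K2, Kassoc hAB hC hk K3, GG_eq, yy_eq, yy_eq]

end stage1

end Pool.Agent.W974.Aim
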