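import Pool.Agent.W974.Aim4

set_option autoImplicit false
set_option linter.unusedSectionVars false

namespace Pool.Agent.W974.Aim

open Lp

/-- additive with a symmetric 2-torsion defect. -/
lemma additive_defect {Q M : Type} [Mul Q] [AddCommGroup M] (f : Q → Q → Q → M)
    (δ : Q → Q → Q → Q → M)
    (cyc : ∀ x y z, f x y z = f y z x)
    (coc : ∀ w x y z, f x y z + f w (x * y) z + f w x y + δ w x y z = f w x (y * z) + f (w * x) y z)
    (sy : ∀ u v p q, f (u * v) p q = f (v * u) p q + δ u v p q)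
    (d1 : ∀ u v p q, δ u v p q = δ v u p q) (d2 : ∀ u v p q, δ u v p q = δ u p v q)
    (d3 : ∀ u v p q, δ u v p q = δ u v q p) (dt : ∀ u v p q, δ u v p q + δ u v p q = 0)
    (u v p q : Q) : δ u v p q = 0 ∧ f (u * v) p q = f u p q + f v p q := by
  obtain ⟨a, ha⟩ : ∃ a : Q → Q → Q → Q → M, ∀ u v p q, a u v p q = f (u * v) p q - f u p q - f v p q :=
    ⟨_, fun _ _ _ _ => rfl⟩
  have as : ∀ u v p q, a u v p q = a v u p q + δ u v p q := fun u v p q => by
    rw [ha, ha, sy u v]; abel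
  have star : ∀ w x y z, a x y z w - a y z w x - a w x y z = - δ w x y z := fun w x y z => by
    rw [ha, ha, ha]
    have h1 := coc w x y z
    rw [cyc w (x * y) z, ← cyc (y * z) w x] at h1
    have h2 := cyc z w x
    have h3 := cyc w x z
    have h4 := cyc w y z
    have h5 := cyc y w x
    have e1 : f (w * x) y z = f x y z + f (x * y) z w + f w x y + δ w x y z - f (y * z) w x := by
      rw [eq_sub_iff_add_eq, add_comm, ← h1]
    rw [e1, h2, h3, h4, h5]
    abel
  have key : ∀ u v p q, a u v p q = 0 := fun u v p q => by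
    have s1 := star u v p q
    have s2 := star u v q p
    have s3 := star v q u p
    have s4 := star p u v q
    have s5 := star p v q u
    have e2 : δ u v q p = δ u v p q := d3 u v q p
    have e3 : δ v q u p = δ u v p q := by rw [d2 v q u p, d1 v u q p, d3 u v q p]
    have e4 : δ p u v q = δ u v p q := by rw [d1 p u v q, d2 u p v q]
    have e5 : δ p v q u = δ u v p q := by
      rw [d3 p v q u, d2 p v u q, d1 p u v q, d2 u p v q]
    have e6 : δ q p u v = δ u v p q := by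
      rw [d2 q p u v, d1 q u p v, d3 u q p v, d2 u q v p, d3 u v q p]
    rw [e2] at s2
    rw [e3] at s3
    rw [e4] at s4
    rw [e5] at s5
    have a1 := as q p u v
    have a2 := as p u v q
    have a3 := as p v q u
    rw [e6] at a1
    rw [e4] at a2
    rw [e5] at a3
    have t := dt u v p q
    have : a u v p q - δ u v p q =
        -(a v p q u - a p q u v - a u v p q) + (a v q p u - a q p u v - a u v q p)
        - (a q u p v - a u p v q - a v q u p) + (a u v q p - a v q p u - a p u v q)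
        - (a v q u p - a q u p v - a p v q u) := by
      rw [a1, a2, a3]; abel
    rw [s1, s2, s3, s4, s5] at this
    have h7 : a u v p q = δ u v p q + δ u v p q := by
      rw [sub_eq_iff_eq_add] at this
      rw [this]; abel
    rw [h7, t]
  refine ⟨?_, ?_⟩
  · have := as u v p q
    rw [key, key, zero_add] at this
    exact this.symm
  · have := ha u v p q
    rw [key] at this
    rw [eq_comm, sub_sub, sub_eq_zero] at this
    exact this

variable {Q : Type} [Lp Q]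

lemma L_one : L (1 : Q) = 1 := by ext q; exact o1 q

lemma KK_1 : KK Q (1 : Q) := by unfold KK; rw [L_one]; exact one_mem _

lemma G1 (hAB : AB Q) {g : Equiv.Perm Q} (hg : g ∈ Hs Q) {s k : Q} (hs : Z2 s) (hsK : KK Q s)
    (hk : KK Q k) : g (s * k) = act (dd g s) (s * g k) := by
  have hv : C1 Q (g * L s * g⁻¹ * (L s)⁻¹) := by
    refine ⟨mul_mem (mul_mem (mul_mem hg.1 (L_mem _)) (inv_mem hg.1)) (inv_mem (L_mem _)), fun q => ?_⟩
    obtain ⟨p, hp⟩ : ∃ p, q = s * g p := ⟨g⁻¹ ((L s)⁻¹ q), by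
      rw [pinv]; exact (Li_eq.mp rfl)⟩
    have e1 : (g * L s * g⁻¹ * (L s)⁻¹) q = g (s * p) := by
      simp only [Equiv.Perm.mul_apply]
      have : (L s)⁻¹ q = g p := by rw [Li_eq, hp]
      rw [this, pinv', L_app]
    obtain ⟨m, hm⟩ := z2_iff hs (GG_mem hg.1 p)
    have e2 : g (s * p) = act m (s * g p) := by
      rw [← GG_eq g p s, hm, act_mul]
    exact ⟨_, (Additive.toMul m).2, by rw [e1, e2, ← hp]; rfl⟩
  set v := g * L s * g⁻¹ * (L s)⁻¹ with hvdef
  have hvg : ∀ q, g (s * q) = v (s * g q) := fun q => by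
    simp only [hvdef, Equiv.Perm.mul_apply]
    have : (L s)⁻¹ (s * g q) = g q := by rw [Li_eq]
    rw [this, pinv', L_app]
  have hvK : ∀ k, KK Q k → ∀ q, v (k * q) = k * v q := fun k hk q => by
    have := C1_comm hAB hv hk
    have h2 : (v * L k) q = (L k * v) q := by rw [this]
    exact h2
  have hv1 : v 1 = act (dd g s) 1 := by
    have h1 := hvg 1
    have h2 := hvK s hsK 1
    rw [o2] at h2
    rw [hg.2, o2, h2, dd_spec hg hs] at h1
    apply lcancel (a := s)
    rw [← h1, mul_act, o2]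
  have hvk : ∀ k, KK Q k → v k = act (dd g s) k := fun k hk => by
    have := hvK k hk 1
    rw [o2, hv1, mul_act, o2] at this
    exact this
  rw [hvg, hvk _ (KK_mul hsK (KK_app (Hs_NG hg) hk))]

variable (Q) in
/-- the group `{L s : s ∈ Z2 ∩ K}`. -/
def AA [hAB : Fact (AB Q)] : Subgroup (Equiv.Perm Q) where
  carrier := {p | ∃ s, Z2 s ∧ KK Q s ∧ p = L s}
  mul_mem' := by
    rintro _ _ ⟨s, hs, hsK, rfl⟩ ⟨t, ht, htK, rfl⟩
    refine ⟨s * t, fun g hg => ?_, KK_mul hsK htK, ?_⟩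
    · refine ⟨_, (Additive.toMul (dd g s + dd g t)).2, ?_⟩
      rw [G1 hAB.out hg hs hsK htK, dd_spec hg ht, mul_act, ← act_add]
      rfl
    · ext q
      exact (I7 hAB.out hs htK q).symm
  one_mem' := ⟨1, Z2_one, KK_1, L_one.symm⟩
  inv_mem' := by
    rintro _ ⟨s, hs, hsK, rfl⟩
    have h1 : s * (L s)⁻¹ 1 = 1 := (Li_eq.mp rfl).symm
    have hK : KK Q ((L s)⁻¹ 1) := KK_one (inv_mem hsK)
    refine ⟨(L s)⁻¹ 1, fun g hg => ?_, hK, ?_⟩
    · refine ⟨_, (Additive.toMul (-dd g s)).2, ?_⟩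
      change g ((L s)⁻¹ 1) = act (-dd g s) ((L s)⁻¹ 1)
      have h2 := G1 hAB.out hg hs hsK hK
      rw [h1, hg.2] at h2
      apply lcancel (a := s)
      rw [mul_act, h1]
      apply act_inj' (m := dd g s)
      rw [← h2, ← act_add]; simp
    · rw [inv_eq_iff_mul_eq_one]
      ext q
      have := I7 hAB.out hs hK q
      rw [h1, o1] at this
      exact this.symm

instance [hAB : Fact (AB Q)] : CommGroup (AA Q) :=
  { (inferInstance : Group (AA Q)) with
    mul_comm := by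
      rintro ⟨_, s, hs, hsK, rfl⟩ ⟨_, t, ht, htK, rfl⟩
      apply Subtype.ext
      change L s * L t = L t * L s
      ext q
      change s * (t * q) = t * (s * q)
      rw [← I7 hAB.out hs htK q, ← I7 hAB.out ht hsK q, I1 hAB.out hs htK] }

variable (Q) in
abbrev M2 [Fact (AB Q)] := Additive (AA Q)

section m2
variable [hAB : Fact (AB Q)]

/-- action of `M2`. -/
def act2 (m : M2 Q) (q : Q) : Q := ((Additive.toMul m : AA Q) : Equiv.Perm Q) q

/-- the loop element of an element of `M2`. -/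
def sv (m : M2 Q) : Q := act2 m 1

lemma sv_spec (m : M2 Q) : Z2 (sv m) ∧ KK Q (sv m) ∧ ∀ q, act2 m q = sv m * q := by
  obtain ⟨s, hs, hsK, h⟩ := (Additive.toMul m : AA Q).2
  have h1 : ∀ q, act2 m q = s * q := fun q => by
    change ((Additive.toMul m : AA Q) : Equiv.Perm Q) q = _
    rw [h]; rfl
  have h2 : sv m = s := by unfold sv; rw [h1, o2]
  rw [h2]
  exact ⟨hs, hsK, h1⟩

lemma act2_add (m m' : M2 Q) (q : Q) : act2 (m + m') q = act2 m (act2 m' q) := rfl
@[simp] lemma act2_zero (q : Q) : act2 (0 : M2 Q) q = q := rfl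
lemma act2_inj {m m' : M2 Q} {q : Q} (h : act2 m q = act2 m' q) : m = m' := by
  rw [(sv_spec m).2.2, (sv_spec m').2.2] at h
  have h1 := rcancel h
  have h2 : ((Additive.toMul m : AA Q) : Equiv.Perm Q) = (Additive.toMul m' : AA Q) := by
    ext x
    change act2 m x = act2 m' x
    rw [(sv_spec m).2.2, (sv_spec m').2.2, h1]
  exact Additive.toMul.injective (Subtype.ext h2)
lemma act2_inj' {m : M2 Q} {q q' : Q} (h : act2 m q = act2 m q') : q = q' :=
  (((Additive.toMul m : AA Q) : Equiv.Perm Q)).injective h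
lemma act2_comm (m m' : M2 Q) (q : Q) : act2 m (act2 m' q) = act2 m' (act2 m q) := by
  rw [← act2_add, add_comm, act2_add]

lemma act2_mk {s : Q} (hs : Z2 s) (hsK : KK Q s) : ∃ m : M2 Q, ∀ q, act2 m q = s * q :=
  ⟨Additive.ofMul ⟨L s, s, hs, hsK, rfl⟩, fun _ => rfl⟩

lemma ZM_eq_L {c : Equiv.Perm Q} (hc : c ∈ ZM Q) : c = L (c 1) := by
  ext q
  rw [L_app, zr hc, o1]

/-- inclusion of the centre. -/
def io (m : MZ Q) : M2 Q :=
  Additive.ofMul ⟨((Additive.toMul m : ZM Q) : Equiv.Perm Q), by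
    have hc := (Additive.toMul m : ZM Q).2
    refine ⟨act m 1, Z2_act Z2_one m, ?_, ZM_eq_L hc⟩
    exact KK_one (ZM_NG hc)⟩

@[simp] lemma act2_io (m : MZ Q) (q : Q) : act2 (io m) q = act m q := rfl
lemma io_add (m m' : MZ Q) : io (m + m') = io m + io m' := rfl
@[simp] lemma io_zero : io (0 : MZ Q) = 0 := rfl
lemma io_inj {m m' : MZ Q} (h : io m = io m') : m = m' := by
  apply act_inj (q := (1 : Q))
  rw [← act2_io, h, act2_io]
lemma io_neg (m : MZ Q) : io (-m) = - io m := rfl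

lemma act2_act (m : M2 Q) (z : MZ Q) (q : Q) : act2 m (act z q) = act z (act2 m q) := by
  rw [(sv_spec m).2.2, (sv_spec m).2.2, mul_act]

lemma act2_mul {k : Q} (hk : KK Q k) (m : M2 Q) (q : Q) : act2 m k * q = act2 m (k * q) := by
  rw [(sv_spec m).2.2, (sv_spec m).2.2, I7 hAB.out (sv_spec m).1 hk]
lemma mul_act2 {k : Q} (hk : KK Q k) (m : M2 Q) (q : Q) : k * act2 m q = act2 m (k * q) := by
  rw [(sv_spec m).2.2, (sv_spec m).2.2, ← I2 hAB.out (sv_spec m).1 hk,
    ← I1 hAB.out (sv_spec m).1 hk, I7 hAB.out (sv_spec m).1 hk]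
lemma act2_mul_act2 {k k' : Q} (hk : KK Q k) (m m' : M2 Q) :
    act2 m k * act2 m' k' = act2 (m + m') (k * k') := by
  rw [act2_mul hk, mul_act2 hk, act2_add]

lemma KK_act2 {k : Q} (hk : KK Q k) (m : M2 Q) : KK Q (act2 m k) := by
  rw [(sv_spec m).2.2]; exact KK_mul (sv_spec m).2.1 hk
lemma KK_act {k : Q} (hk : KK Q k) (m : MZ Q) : KK Q (act m k) := by
  rw [← act2_io]; exact KK_act2 hk _

/-- displacement on `M2`. -/
noncomputable def DD (g : Equiv.Perm Q) (m : M2 Q) : MZ Q := dd g (sv m)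

lemma g_act2 {g : Equiv.Perm Q} (hg : g ∈ Hs Q) (m : M2 Q) {k : Q} (hk : KK Q k) :
    g (act2 m k) = act (DD g m) (act2 m (g k)) := by
  rw [(sv_spec m).2.2, (sv_spec m).2.2, G1 hAB.out hg (sv_spec m).1 (sv_spec m).2.1 hk]; rfl

lemma DD_uniq {g : Equiv.Perm Q} {m : M2 Q} {z : MZ Q} (h : g (sv m) = act z (sv m)) :
    DD g m = z := dd_uniq h
lemma DD_spec {g : Equiv.Perm Q} (hg : g ∈ Hs Q) (m : M2 Q) : g (sv m) = act (DD g m) (sv m) :=
  dd_spec hg (sv_spec m).1
lemma DD_add {g : Equiv.Perm Q} (hg : g ∈ Hs Q) (m m' : M2 Q) :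
    DD g (m + m') = DD g m + DD g m' := by
  apply DD_uniq
  change g (act2 m (sv m')) = act _ (act2 m (sv m'))
  rw [g_act2 hg m (sv_spec m').2.1, DD_spec hg, act2_act, ← act_add]
lemma DD_zero {g : Equiv.Perm Q} (hg : g ∈ Hs Q) : DD g (0 : M2 Q) = 0 := by
  have := DD_add hg (0 : M2 Q) 0
  rw [add_zero] at this
  exact left_eq_add.mp this
lemma DD_neg {g : Equiv.Perm Q} (hg : g ∈ Hs Q) (m : M2 Q) : DD g (-m) = - DD g m := by
  have := DD_add hg m (-m)
  rw [add_neg_cancel, DD_zero hg] at this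
  exact (neg_eq_of_add_eq_zero_right this.symm).symm
lemma DD_io {g : Equiv.Perm Q} (hg : g ∈ Hs Q) (z : MZ Q) : DD g (io z) = 0 := by
  apply DD_uniq
  change g (act z 1) = act 0 (act z 1)
  rw [g_act hg.1, hg.2, act_zero]
lemma DD_mul {g g' : Equiv.Perm Q} (hg : g ∈ Hs Q) (hg' : g' ∈ Hs Q) (m : M2 Q) :
    DD (g * g') m = DD g m + DD g' m := dd_mul hg hg' (sv_spec m).1
lemma DD_inv {g : Equiv.Perm Q} (hg : g ∈ Hs Q) (m : M2 Q) :
    DD g⁻¹ m = - DD g m := dd_inv hg (sv_spec m).1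

open Classical in
/-- displacement with values in `M2`. -/
noncomputable def ee (g : Equiv.Perm Q) (n : Q) : M2 Q :=
  if h : ∃ m : M2 Q, g n = act2 m n then h.choose else 0

lemma ee_uniq {g : Equiv.Perm Q} {n : Q} {m : M2 Q} (h : g n = act2 m n) : ee g n = m := by
  have h' : ∃ m : M2 Q, g n = act2 m n := ⟨m, h⟩
  unfold ee
  rw [dif_pos h']
  exact act2_inj (q := n) (by rw [← h'.choose_spec, h])

variable (Q) in
/-- displacement property. -/
def EE : Prop := ∀ g ∈ Hs Q, ∀ n, KK Q n → ∃ m : M2 Q, g n = act2 m n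

variable (hE : EE Q)
include hE

lemma ee_spec {g : Equiv.Perm Q} (hg : g ∈ Hs Q) {n : Q} (hn : KK Q n) :
    g n = act2 (ee g n) n := by
  have h := hE g hg n hn
  unfold ee
  rw [dif_pos h]
  exact h.choose_spec

lemma ee_act {g : Equiv.Perm Q} (hg : g ∈ Hs Q) {n : Q} (hn : KK Q n) (z : MZ Q) :
    ee g (act z n) = ee g n := by
  apply ee_uniq
  rw [g_act hg.1, ee_spec hE hg hn, act2_act]

lemma ee_act2 {g : Equiv.Perm Q} (hg : g ∈ Hs Q) {n : Q} (hn : KK Q n) (m : M2 Q) :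
    ee g (act2 m n) = io (DD g m) + ee g n := by
  apply ee_uniq
  rw [g_act2 hg m hn, ee_spec hE hg hn, act2_add, act2_io, act2_comm]

lemma ee_one {g : Equiv.Perm Q} (hg : g ∈ Hs Q) : ee g (1 : Q) = 0 := ee_uniq (by simp [hg.2])

/-- additivity predicate -/
def Ad (g : Equiv.Perm Q) (n k : Q) : Prop := g (n * k) = g n * g k

lemma ee_mul {g : Equiv.Perm Q} (hg : g ∈ Hs Q) {n k : Q} (hn : KK Q n) (hk : KK Q k)
    (h : Ad g n k) : ee g (n * k) = ee g n + ee g k := by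
  apply ee_uniq
  rw [h, ee_spec hE hg hn, ee_spec hE hg hk, act2_mul_act2 hn]

lemma ee_sym {g h : Equiv.Perm Q} (hg : g ∈ Hs Q) (hh : h ∈ Hs Q) (x : Q) :
    ee g (yy h x) = ee h (yy g x) := by
  have h1 := yy_sym hAB.out hg hh x
  have K1 := yy_K (Hs_NG hh) x
  have K2 := yy_K (Hs_NG hg) x
  rw [ee_spec hE hg K1, ee_spec hE hh K2, mul_act2 K1, mul_act2 K2,
    yy_comm hAB.out hg hh x] at h1
  exact (act2_inj h1).symm

lemma Hs_comm {g h : Equiv.Perm Q} (hg : g ∈ Hs Q) (hh : h ∈ Hs Q) : g * h = h * g :=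
  hAB.out 1 g h hg.1 hh.1 hg.2 hh.2

lemma DD_ee {g h : Equiv.Perm Q} (hg : g ∈ Hs Q) (hh : h ∈ Hs Q) {n : Q} (hn : KK Q n) :
    DD g (ee h n) = DD h (ee g n) := by
  have h1 : g (h n) = h (g n) := by
    have := Hs_comm hE hg hh
    have h2 : (g * h) n = (h * g) n := by rw [this]
    exact h2
  rw [ee_spec hE hh hn, g_act2 hg _ hn, ee_spec hE hg hn, g_act2 hh _ hn, ee_spec hE hh hn,
    act2_comm] at h1
  exact act_inj h1

end m2

/-- Lemma M. -/
lemma lemM (hAB : AB Q) {g : Equiv.Perm Q} (hg : g ∈ Hs Q) {n : Q}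
    (h : ∀ q, ∃ m : MZ Q, g (n * q) = act m (g n * g q)) {k : Q} (hk : KK Q k) :
    Ad g n k := by
  have hτ : C1 Q ((L (g n))⁻¹ * g * L n * g⁻¹) := by
    refine ⟨mul_mem (mul_mem (mul_mem (inv_mem (L_mem _)) hg.1) (L_mem _)) (inv_mem hg.1),
      fun q => ?_⟩
    obtain ⟨m, hm⟩ := h (g⁻¹ q)
    refine ⟨_, (Additive.toMul m).2, ?_⟩
    change (L (g n))⁻¹ (g (n * g⁻¹ q)) = act m q
    rw [Li_eq, hm, pinv, mul_act]
  have h1 : ((L (g n))⁻¹ * g * L n * g⁻¹) 1 = 1 := by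
    have : g⁻¹ 1 = 1 := (inv_mem hg : g⁻¹ ∈ Hs Q).2
    simp only [Equiv.Perm.mul_apply, this, L_app, o2]
    rw [Li_eq, o2]
  have h2 := C1_fix hAB hτ h1 (KK_app (Hs_NG hg) hk)
  have h3 : ((L (g n))⁻¹ * g * L n * g⁻¹) (g k) = (L (g n))⁻¹ (g (n * k)) := by
    simp only [Equiv.Perm.mul_apply, pinv', L_app]
  rw [h3, Li_eq] at h2
  exact h2

end Pool.Agent.W974.Aim
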