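import Pool.Agent.W974.Aim5

set_option autoImplicit false
set_option linter.unusedSectionVars false

namespace Pool.Agent.W974.Aim

open Lp

/-- central elements from inner-map invariance. -/
lemma cen_of {Q : Type} [Lp Q] {s : Q} (h1 : ∀ q p, RR q p s = s) (h2 : ∀ p q, WW p q s = s) :
    L s ∈ ZM Q := by
  refine ⟨L_mem s, ?_⟩
  have hle : MG Q ≤ Subgroup.centralizer {L s} := by
    unfold MG
    rw [Subgroup.closure_le]
    rintro g (⟨p, rfl⟩ | ⟨p, rfl⟩)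
    · show L p ∈ Subgroup.centralizer {L s}
      rw [Subgroup.mem_centralizer_iff]
      rintro _ rfl
      ext q
      have := WW_eq p q s
      rw [h2] at this
      exact this
    · show R p ∈ Subgroup.centralizer {L s}
      rw [Subgroup.mem_centralizer_iff]
      rintro _ rfl
      ext q
      have := RR_eq q p s
      rw [h1] at this
      exact this
  intro g hg
  have := hle hg
  rw [Subgroup.mem_centralizer_iff] at this
  exact (this (L s) rfl).symm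

variable {Q P : Type} [Lp Q] [Lp P]

lemma ZM_eq' {P : Type} [Lp P] {c : Equiv.Perm P} (hc : c ∈ ZM P) : L (c 1) = c := by
  ext q; rw [L_app, zr hc, o1]

/-- central extension data. -/
structure Ex (π : Q → P) : Prop where
  mul : ∀ a b, π (a * b) = π a * π b
  sur : Function.Surjective π
  ker : ∀ x y, π x = π y ↔ ∃ m : MZ Q, x = act m y

/-- lifting relation. -/
def Lf (π : Q → P) (g : Equiv.Perm Q) (g' : Equiv.Perm P) : Prop := ∀ x, π (g x) = g' (π x)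

section lifts
variable {π : Q → P} (hπ : Ex π)
include hπ

lemma Ex.one : π 1 = 1 := by
  apply lcancel (a := π 1)
  rw [← hπ.mul, o2, o2]
lemma Ex.rd (a b : Q) : π (Lp.rd b a) = Lp.rd (π b) (π a) := by
  symm
  apply rd_of_eq
  rw [← hπ.mul, rd_mul]
lemma Ex.nn (a b c : Q) : π (nn a b c) = Aim.nn (π a) (π b) (π c) := by
  unfold Aim.nn; rw [hπ.rd]; simp only [hπ.mul]
lemma Ex.kk (a b : Q) : π (kk a b) = Aim.kk (π a) (π b) := by
  unfold Aim.kk; rw [hπ.rd]; simp only [hπ.mul]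
lemma Ex.act (m : MZ Q) (x : Q) : π (Aim.act m x) = π x := (hπ.ker _ _).mpr ⟨m, rfl⟩

lemma Lf_L (a : Q) : Lf π (L a) (L (π a)) := fun x => hπ.mul a x
lemma Lf_R (a : Q) : Lf π (R a) (R (π a)) := fun x => hπ.mul x a
omit hπ in
lemma Lf_one : Lf π 1 1 := fun _ => rfl
omit hπ in
lemma Lf_mul {g h : Equiv.Perm Q} {g' h' : Equiv.Perm P} (h1 : Lf π g g') (h2 : Lf π h h') :
    Lf π (g * h) (g' * h') := fun x => by
  rw [Equiv.Perm.mul_apply, h1, h2, Equiv.Perm.mul_apply]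
omit hπ in
lemma Lf_inv {g : Equiv.Perm Q} {g' : Equiv.Perm P} (h1 : Lf π g g') : Lf π g⁻¹ g'⁻¹ := fun x => by
  rw [Equiv.Perm.eq_inv_iff_eq, ← h1, pinv]
lemma Lf_uniq {g : Equiv.Perm Q} {g' g'' : Equiv.Perm P} (h1 : Lf π g g') (h2 : Lf π g g'') :
    g' = g'' := by
  ext y
  obtain ⟨x, rfl⟩ := hπ.sur y
  rw [← h1, h2]
lemma Lf_LL (a b : Q) : Lf π (LL a b) (LL (π a) (π b)) := by
  unfold LL
  rw [← hπ.mul]
  exact Lf_mul (Lf_mul (Lf_inv (Lf_L hπ _)) (Lf_L hπ _)) (Lf_L hπ _)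
lemma Lf_RR (a b : Q) : Lf π (RR a b) (RR (π a) (π b)) := by
  unfold RR
  rw [← hπ.mul]
  exact Lf_mul (Lf_mul (Lf_inv (Lf_R hπ _)) (Lf_R hπ _)) (Lf_R hπ _)
lemma Lf_MM (a b : Q) : Lf π (MM a b) (MM (π a) (π b)) :=
  Lf_mul (Lf_mul (Lf_mul (Lf_inv (Lf_R hπ _)) (Lf_inv (Lf_L hπ _))) (Lf_R hπ _)) (Lf_L hπ _)
lemma Lf_TT (a : Q) : Lf π (TT a) (TT (π a)) := Lf_mul (Lf_inv (Lf_R hπ _)) (Lf_L hπ _)
lemma Lf_WW (a b : Q) : Lf π (WW a b) (WW (π a) (π b)) := by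
  unfold WW
  rw [← hπ.mul]
  exact Lf_mul (Lf_mul (Lf_inv (Lf_R hπ _)) (Lf_L hπ _)) (Lf_R hπ _)
lemma Lf_GG {g : Equiv.Perm Q} {g' : Equiv.Perm P} (h : Lf π g g') (q : Q) :
    Lf π (GG g q) (GG g' (π q)) := by
  unfold GG
  rw [← h]
  exact Lf_mul (Lf_mul (Lf_inv (Lf_R hπ _)) h) (Lf_R hπ _)
lemma Lf_yy {g : Equiv.Perm Q} {g' : Equiv.Perm P} (h : Lf π g g') (q : Q) :
    π (yy g q) = yy g' (π q) := by
  unfold yy; rw [hπ.rd, h]

lemma Lf_MG {g : Equiv.Perm Q} (hg : g ∈ MG Q) : ∃ g' ∈ MG P, Lf π g g' := by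
  unfold MG at hg
  induction hg using Subgroup.closure_induction with
  | mem g hg =>
    rcases hg with ⟨a, rfl⟩ | ⟨a, rfl⟩
    · exact ⟨_, L_mem _, Lf_L hπ a⟩
    · exact ⟨_, R_mem _, Lf_R hπ a⟩
  | one => exact ⟨1, one_mem _, Lf_one⟩
  | mul a b _ _ ha hb =>
    obtain ⟨a', ha', h1⟩ := ha
    obtain ⟨b', hb', h2⟩ := hb
    exact ⟨_, mul_mem ha' hb', Lf_mul h1 h2⟩
  | inv a _ ha =>
    obtain ⟨a', ha', h1⟩ := ha
    exact ⟨_, inv_mem ha', Lf_inv h1⟩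

lemma Lf_Hs {g : Equiv.Perm Q} (hg : g ∈ Hs Q) : ∃ g' ∈ Hs P, Lf π g g' := by
  obtain ⟨g', hg', h⟩ := Lf_MG hπ hg.1
  refine ⟨g', ⟨hg', ?_⟩, h⟩
  rw [← hπ.one, ← h, hg.2]

lemma Lf_NG {g : Equiv.Perm Q} (hg : g ∈ NG Q) : ∃ g' ∈ NG P, Lf π g g' := by
  unfold NG at hg
  induction hg using Subgroup.closure_induction with
  | mem g hg =>
    rcases hg with ⟨hg, x, hx⟩ | hg
    · obtain ⟨g', hg', h⟩ := Lf_MG hπ hg
      refine ⟨g', mem_NG hg' (x := π x) ?_, h⟩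
      rw [← h, hx]
    · exact ⟨1, one_mem _, fun x => hπ.act (Additive.ofMul ⟨g, hg⟩) x⟩
  | one => exact ⟨1, one_mem _, Lf_one⟩
  | mul a b _ _ ha hb =>
    obtain ⟨a', ha', h1⟩ := ha
    obtain ⟨b', hb', h2⟩ := hb
    exact ⟨_, mul_mem ha' hb', Lf_mul h1 h2⟩
  | inv a _ ha =>
    obtain ⟨a', ha', h1⟩ := ha
    exact ⟨_, inv_mem ha', Lf_inv h1⟩

lemma Ex.KK {n : Q} (hn : KK Q n) : Aim.KK P (π n) := by
  obtain ⟨g', hg', h⟩ := Lf_NG hπ hn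
  have := Lf_uniq hπ h (Lf_L hπ n)
  unfold Aim.KK
  rw [← this]; exact hg'

/-- image of a second centre element is central. -/
lemma Ex.Z2 {s : Q} (hs : Z2 s) : L (π s) ∈ ZM P := by
  apply cen_of
  · intro q p
    obtain ⟨q, rfl⟩ := hπ.sur q
    obtain ⟨p, rfl⟩ := hπ.sur p
    obtain ⟨m, hm⟩ := z2_iff hs (RR_mem q p)
    rw [← Lf_RR hπ, hm, hπ.act]
  · intro q p
    obtain ⟨q, rfl⟩ := hπ.sur q
    obtain ⟨p, rfl⟩ := hπ.sur p
    obtain ⟨m, hm⟩ := z2_iff hs (WW_mem q p)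
    rw [← Lf_WW hπ, hm, hπ.act]

/-- an element with central image is in the second centre. -/
lemma Ex.Z2' {s : Q} (hs : L (π s) ∈ ZM P) : Aim.Z2 s := by
  intro g hg
  obtain ⟨g', hg', h⟩ := Lf_Hs hπ hg
  have h1 : π (g s) = π s := by
    rw [h]
    have h2 : (g' * L (π s)) 1 = (L (π s) * g') 1 := by rw [hs.2 g' hg'.1]
    rw [Equiv.Perm.mul_apply, Equiv.Perm.mul_apply, hg'.2, L_app, o2] at h2
    exact h2
  obtain ⟨m, hm⟩ := (hπ.ker _ _).mp h1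
  exact ⟨_, (Additive.toMul m).2, hm⟩

end lifts

section rho
variable [hAB : Fact (AB Q)] {π : Q → P} (hπ : Ex π)

/-- map to the centre of the quotient. -/
def rho (m : M2 Q) : MZ P := Additive.ofMul ⟨L (π (sv m)), hπ.Z2 (sv_spec m).1⟩

include hπ

lemma rho_spec (m : M2 Q) (q : Q) : act (rho hπ m) (π q) = π (act2 m q) := by
  change L (π (sv m)) (π q) = _
  rw [L_app, ← hπ.mul, (sv_spec m).2.2]

lemma rho_add (m m' : M2 Q) : rho hπ (m + m') = rho hπ m + rho hπ m' := by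
  apply act_inj (q := π 1)
  rw [rho_spec, act2_add, ← rho_spec hπ m, ← rho_spec hπ m', act_add]

lemma rho_DD {g : Equiv.Perm Q} (hg : g ∈ Hs Q) {m m' : M2 Q} (h : rho hπ m = rho hπ m') :
    DD g m = DD g m' := by
  have h1 : π (sv m) = π (sv m') := by
    unfold sv
    rw [← rho_spec hπ, ← rho_spec hπ, h]
  obtain ⟨z, hz⟩ := (hπ.ker _ _).mp h1
  unfold DD
  rw [hz, dd_act hg (sv_spec m').1]

lemma EE_of (hC : C3 P) : EE Q := by
  intro g hg n hn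
  obtain ⟨g', hg', h⟩ := Lf_Hs hπ hg
  have hn' := hC _ (hπ.KK hn)
  obtain ⟨c, hc, h1⟩ := hn' g' hg'
  have hs : Z2 (rd (g n) n) := by
    apply hπ.Z2'
    rw [hπ.rd, h, h1]
    have h2 : rd (c (π n)) (π n) = c 1 := rd_of_eq (by rw [zr hc, o1])
    rw [h2, ZM_eq' hc]
    exact hc
  have hK : KK Q (rd (g n) n) := KK_of (Hs_NG hg) n
  obtain ⟨m, hm⟩ := act2_mk hs hK
  exact ⟨m, by rw [hm, rd_mul]⟩

lemma rho_ee (hE : EE Q) (hC : C3 P) {g : Equiv.Perm Q} {g' : Equiv.Perm P} (hg : g ∈ Hs Q)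
    (hg' : g' ∈ Hs P) (h : Lf π g g') {n : Q} (hn : KK Q n) :
    rho hπ (ee g n) = dd g' (π n) := by
  apply act_inj (q := π n)
  rw [rho_spec, ← ee_spec hE hg hn, h, dd_spec hg' (hC _ (hπ.KK hn))]

lemma lemM' (hAB' : AB Q) {g : Equiv.Perm Q} {g' : Equiv.Perm P} (hg : g ∈ Hs Q) (h : Lf π g g')
    {n : Q} (h1 : ∀ q, g' (π n * q) = g' (π n) * g' q) {k : Q} (hk : KK Q k) : Ad g n k := by
  apply lemM hAB' hg _ hk
  intro q
  apply (hπ.ker _ _).mp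
  rw [h, hπ.mul, h1, hπ.mul, h, h]

end rho

end Pool.Agent.W974.Aim
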