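import Pool.Agent.W974.Aim6

set_option autoImplicit false
set_option linter.unusedSectionVars false

namespace Pool.Agent.W974.Aim

open Lp

variable {Q P : Type} [Lp Q] [Lp P] [hAB : Fact (AB Q)] {π : Q → P}

noncomputable def H5 (p q a b c : Q) : M2 Q := ee (LL p q) (nn a b c)
noncomputable def H4 (a b c d : Q) : M2 Q := ee (TT c) (nn a b d)
noncomputable def H3 (c x a : Q) : M2 Q := ee (TT c) (kk x a)

variable (hπ : Ex π) (hB : AB P) (hC : C3 P)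
include hπ hB hC

lemma hEE : EE Q := EE_of hπ hC

lemma Ad_LL_nn (p r x y z : Q) {k : Q} (hk : KK Q k) : Ad (LL p r) (nn x y z) k :=
  lemM' hπ hAB.out (LL_mem p r) (Lf_LL hπ p r) (fun q => by
    rw [hπ.nn]
    exact X1' hB hC (LL_mem _ _) (nZ hB hC _ _ _) q (mu_LL_nn hB hC _ _ _ _ _ _)) hk
lemma Ad_RR_nn (p r x y z : Q) {k : Q} (hk : KK Q k) : Ad (RR p r) (nn x y z) k :=
  lemM' hπ hAB.out (RR_mem p r) (Lf_RR hπ p r) (fun q => by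
    rw [hπ.nn]
    exact X1' hB hC (RR_mem _ _) (nZ hB hC _ _ _) q (mu_RR_nn hB hC _ _ _ _ _ _)) hk
lemma Ad_MM_nn (p r x y z : Q) {k : Q} (hk : KK Q k) : Ad (MM p r) (nn x y z) k :=
  lemM' hπ hAB.out (MM_mem p r) (Lf_MM hπ p r) (fun q => by
    rw [hπ.nn]
    exact X1' hB hC (MM_mem _ _) (nZ hB hC _ _ _) q (mu_MM_nn hB hC _ _ _ _ _ _)) hk
lemma Ad_TT_nn (p x y z : Q) {k : Q} (hk : KK Q k) : Ad (TT p) (nn x y z) k :=
  lemM' hπ hAB.out (TT_mem p) (Lf_TT hπ p) (fun q => by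
    rw [hπ.nn]
    exact X1' hB hC (TT_mem _) (nZ hB hC _ _ _) q (mu_TT_nn hB hC _ _ _ _ _)) hk
lemma Ad_LL_kk (p r x y : Q) {k : Q} (hk : KK Q k) : Ad (LL p r) (kk x y) k :=
  lemM' hπ hAB.out (LL_mem p r) (Lf_LL hπ p r) (fun q => by
    rw [hπ.kk]
    exact X1' hB hC (LL_mem _ _) (kZ hB hC _ _) q (mu_LL_kk hB hC _ _ _ _ _)) hk
lemma Ad_RR_kk (p r x y : Q) {k : Q} (hk : KK Q k) : Ad (RR p r) (kk x y) k :=
  lemM' hπ hAB.out (RR_mem p r) (Lf_RR hπ p r) (fun q => by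
    rw [hπ.kk]
    exact X1' hB hC (RR_mem _ _) (kZ hB hC _ _) q (mu_RR_kk hB hC _ _ _ _ _)) hk
lemma Ad_MM_kk (p r x y : Q) {k : Q} (hk : KK Q k) : Ad (MM p r) (kk x y) k :=
  lemM' hπ hAB.out (MM_mem p r) (Lf_MM hπ p r) (fun q => by
    rw [hπ.kk]
    exact X1' hB hC (MM_mem _ _) (kZ hB hC _ _) q (mu_MM_kk hB hC _ _ _ _ _)) hk

lemma ee_cong {g : Equiv.Perm Q} (hg : g ∈ Hs Q) {k k' : Q} (hk : KK Q k') (h : π k = π k') :
    ee g k = ee g k' := by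
  obtain ⟨m, rfl⟩ := (hπ.ker _ _).mp h
  exact ee_act (hEE hπ hB hC) hg hk m

lemma E2 {g : Equiv.Perm Q} (hg : g ∈ Hs Q) (a b c : Q) :
    ee g (yy (RR b c) a) = ee g (nn a b c) := by
  apply ee_cong hπ hB hC hg (nn_K a b c)
  rw [hπ.nn, X2 hB hC, Lf_yy hπ (Lf_RR hπ b c)]

lemma E3 {g : Equiv.Perm Q} (hg : g ∈ Hs Q) (a b c : Q) :
    ee g (yy (MM a c) b) = ee g (nn a b c) := by
  apply ee_cong hπ hB hC hg (nn_K a b c)
  rw [hπ.nn, X3 hB hC, Lf_yy hπ (Lf_MM hπ a c)]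

lemma E5 {g : Equiv.Perm Q} (hg : g ∈ Hs Q) (a b : Q) :
    ee g (yy (TT a) b) = ee g (kk b a) := by
  apply ee_cong hπ hB hC hg (kk_K b a)
  rw [hπ.kk, X5 hB hC, Lf_yy hπ (Lf_TT hπ a)]

lemma E4 {g : Equiv.Perm Q} (hg : g ∈ Hs Q) (a b c : Q)
    (h : ∀ k, KK Q k → Ad g (nn a b c) k) :
    ee g (yy (LL a b) c) = - ee g (nn a b c) := by
  have hE := hEE hπ hB hC
  have K1 := nn_K a b c
  have K2 := yy_K (Hs_NG (LL_mem a b)) c
  have h1 := ee_mul hE hg K1 K2 (h _ K2)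
  have h2 : π (nn a b c * yy (LL a b) c) = π 1 := by
    rw [hπ.mul, Kcomm hB hC (hπ.KK K1) (hπ.KK K2), Lf_yy hπ (Lf_LL hπ a b), hπ.nn, X4 hB hC,
      hπ.one]
  rw [ee_cong hπ hB hC hg KK_1 h2, ee_one hE hg] at h1
  rw [eq_neg_iff_add_eq_zero, add_comm]
  exact h1.symm

lemma E6 {g : Equiv.Perm Q} (hg : g ∈ Hs Q) (a b : Q) (h : Ad g (kk a b) (kk b a)) :
    ee g (kk a b) = - ee g (kk b a) := by
  have hE := hEE hπ hB hC
  have K1 := kk_K a b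
  have K2 := kk_K b a
  have h1 := ee_mul hE hg K1 K2 h
  have h2 : π (kk a b * kk b a) = π 1 := by
    rw [hπ.mul, hπ.kk, hπ.kk, X6 hB hC, hπ.one]
  rw [ee_cong hπ hB hC hg KK_1 h2, ee_one hE hg] at h1
  rw [eq_neg_iff_add_eq_zero]
  exact h1.symm

/-- pentagon. -/
lemma E7 {g : Equiv.Perm Q} (hg : g ∈ Hs Q)
    (h : ∀ x y z k, KK Q k → Ad g (nn x y z) k) (w x y z : Q) :
    ee g (nn w x (y * z)) + ee g (nn (w * x) y z) =
      io (DD g (H4 x y w z)) + (ee g (nn x y z) + (ee g (nn w (x * y) z) + ee g (nn w x y))) := by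
  have hE := hEE hπ hB hC
  have K1 := nn_K x y z
  have K2 := nn_K w (x * y) z
  have K3 := nn_K w x y
  have K4 := nn_K w x (y * z)
  have K5 := nn_K (w * x) y z
  have KW := KK_app (Hs_NG (WW_mem w ((x * y) * z))) K1
  have h1 : π (nn w x (y * z) * nn (w * x) y z) =
      π (act2 (ee (WW w ((x * y) * z)) (nn x y z)) (nn x y z * (nn w (x * y) z * nn w x y))) := by
    rw [← act2_mul K1, ← ee_spec hE (WW_mem _ _) K1, hπ.mul, hπ.mul, hπ.mul, Lf_WW hπ]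
    simp only [hπ.nn, hπ.mul]
    exact X7 hB hC _ _ _ _
  have h2 := ee_cong hπ hB hC hg (KK_act2 (KK_mul K1 (KK_mul K2 K3)) _) h1
  rw [ee_mul hE hg K4 K5 (h _ _ _ _ K5), ee_act2 hE hg (KK_mul K1 (KK_mul K2 K3)),
    ee_mul hE hg K1 (KK_mul K2 K3) (h _ _ _ _ (KK_mul K2 K3)),
    ee_mul hE hg K2 K3 (h _ _ _ _ K3)] at h2
  rw [h2]
  congr 2
  apply rho_DD hπ hg
  unfold H4
  rw [rho_ee hπ hE hC (WW_mem _ _) (WW_mem _ _) (Lf_WW hπ _ _) K1,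
    rho_ee hπ hE hC (TT_mem _) (TT_mem _) (Lf_TT hπ _) K1]
  simp only [hπ.nn, hπ.mul]
  exact X7a hB hC _ _ _ _

/-- dependence on `K` in the first argument. -/
lemma E9 {g : Equiv.Perm Q} (hg : g ∈ Hs Q)
    (h : ∀ x y z k, KK Q k → Ad g (nn x y z) k) {k : Q} (hk : KK Q k) (a b c : Q)
    (hm : dd (GG (RR (π b) (π c)) (π a)) (π k) = dd (RR (π b) (π c)) (π k)) :
    ee g (nn (k * a) b c) = ee g (nn a b c) - io (DD g (ee (RR b c) k)) := by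
  have hE := hEE hπ hB hC
  have K1 := nn_K a b c
  have K2 := nn_K (k * a) b c
  have Kg := GG_mem (RR_mem b c).1 a
  have h1 : π (act2 (ee (GG (RR b c) a) k) (nn (k * a) b c * k)) = π (nn a b c * k) := by
    rw [← mul_act2 K2, ← ee_spec hE Kg hk, hπ.mul, hπ.mul, Lf_GG hπ (Lf_RR hπ b c), hπ.nn, hπ.nn,
      X2 hB hC, X2 hB hC, hπ.mul, X9 hB hC (RR_mem _ _) (hπ.KK hk)]
    exact Kcomm hB hC (hπ.KK hk) (yy_K (Hs_NG (RR_mem _ _)) _)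
  have h2 := ee_cong hπ hB hC hg (KK_mul K1 hk) h1
  rw [ee_act2 hE hg (KK_mul K2 hk), ee_mul hE hg K2 hk (h _ _ _ _ hk),
    ee_mul hE hg K1 hk (h _ _ _ _ hk)] at h2
  have h3 : DD g (ee (GG (RR b c) a) k) = DD g (ee (RR b c) k) := by
    apply rho_DD hπ hg
    rw [rho_ee hπ hE hC Kg (GG_mem (RR_mem _ _).1 _) (Lf_GG hπ (Lf_RR hπ b c) a) hk,
      rho_ee hπ hE hC (RR_mem b c) (RR_mem _ _) (Lf_RR hπ _ _) hk, hm]
  rw [h3] at h2
  rw [eq_sub_iff_add_eq, add_comm]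
  rw [← add_assoc] at h2
  exact add_right_cancel h2

-- tables
lemma H5_s1 (p q a b c : Q) : H5 p q a b c = H5 a b p q c := by
  have h := ee_sym (hEE hπ hB hC) (LL_mem p q) (LL_mem a b) c
  rw [E4 hπ hB hC (LL_mem p q) _ _ _ (fun k hk => Ad_LL_nn hπ hB hC _ _ _ _ _ hk),
    E4 hπ hB hC (LL_mem a b) _ _ _ (fun k hk => Ad_LL_nn hπ hB hC _ _ _ _ _ hk)] at h
  exact neg_injective h

lemma H5_r (p q a b c : Q) : ee (RR b c) (nn p q a) = - H5 p q a b c := by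
  have h := ee_sym (hEE hπ hB hC) (RR_mem b c) (LL_mem p q) a
  rw [E4 hπ hB hC (RR_mem b c) _ _ _ (fun k hk => Ad_RR_nn hπ hB hC _ _ _ _ _ hk),
    E2 hπ hB hC (LL_mem p q)] at h
  rw [H5, ← h, neg_neg]

lemma H5_m (p q a b c : Q) : ee (MM a c) (nn p q b) = - H5 p q a b c := by
  have h := ee_sym (hEE hπ hB hC) (MM_mem a c) (LL_mem p q) b
  rw [E4 hπ hB hC (MM_mem a c) _ _ _ (fun k hk => Ad_MM_nn hπ hB hC _ _ _ _ _ hk),
    E3 hπ hB hC (LL_mem p q)] at h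
  rw [H5, ← h, neg_neg]

lemma H5_s2 (x y z b c : Q) : H5 x y z b c = H5 x b c y z := by
  have h := ee_sym (hEE hπ hB hC) (RR_mem b c) (RR_mem y z) x
  rw [E2 hπ hB hC (RR_mem b c), E2 hπ hB hC (RR_mem y z), H5_r hπ hB hC, H5_r hπ hB hC] at h
  exact neg_injective h

lemma H5_s3 (x y z b c : Q) : H5 x y z b c = H5 y b x c z := by
  have h := ee_sym (hEE hπ hB hC) (RR_mem b c) (MM_mem x z) y
  rw [E3 hπ hB hC (RR_mem b c), E2 hπ hB hC (MM_mem x z), H5_r hπ hB hC, H5_m hπ hB hC] at h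
  exact neg_injective h

lemma H5_cyc (p q a b c : Q) : H5 p q a b c = H5 p q b c a := by
  rw [H5_s1 hπ hB hC, H5_s3 hπ hB hC, H5_s2 hπ hB hC, H5_s1 hπ hB hC]

lemma H4_t1 (a b c d : Q) : ee (LL a b) (kk d c) = - H4 a b c d := by
  have h := ee_sym (hEE hπ hB hC) (TT_mem c) (LL_mem a b) d
  rw [E4 hπ hB hC (TT_mem c) _ _ _ (fun k hk => Ad_TT_nn hπ hB hC _ _ _ _ hk),
    E5 hπ hB hC (LL_mem a b)] at h
  rw [H4, ← h]

lemma H4_a1 (a b c d : Q) : H4 a b c d = - H4 a b d c := by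
  have h1 := H4_t1 hπ hB hC a b c d
  have h2 := H4_t1 hπ hB hC a b d c
  have h3 := E6 hπ hB hC (LL_mem a b) d c (Ad_LL_kk hπ hB hC _ _ _ _ (kk_K c d))
  rw [h1, h2] at h3
  exact neg_injective h3

lemma H4_r (a b c d : Q) : ee (RR b d) (kk a c) = H4 a b c d := by
  have h := ee_sym (hEE hπ hB hC) (TT_mem c) (RR_mem b d) a
  rw [E2 hπ hB hC (TT_mem c), E5 hπ hB hC (RR_mem b d)] at h
  exact h.symm

lemma H4_a2 (a b c d : Q) : H4 a b c d = - H4 c b a d := by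
  have h1 := H4_r hπ hB hC a b c d
  have h2 := H4_r hπ hB hC c b a d
  have h3 := E6 hπ hB hC (RR_mem b d) a c (Ad_RR_kk hπ hB hC _ _ _ _ (kk_K c a))
  rw [h1, h2] at h3
  exact h3

lemma H4_m (a b c d : Q) : ee (MM a d) (kk b c) = H4 a b c d := by
  have h := ee_sym (hEE hπ hB hC) (TT_mem c) (MM_mem a d) b
  rw [E3 hπ hB hC (TT_mem c), E5 hπ hB hC (MM_mem a d)] at h
  exact h.symm

lemma H4_a3 (a b c d : Q) : H4 a b c d = - H4 a c b d := by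
  have h1 := H4_m hπ hB hC a b c d
  have h2 := H4_m hπ hB hC a c b d
  have h3 := E6 hπ hB hC (MM_mem a d) b c (Ad_MM_kk hπ hB hC _ _ _ _ (kk_K c b))
  rw [h1, h2] at h3
  exact h3

lemma H4_cyc (a b c d : Q) : H4 a b c d = H4 b d c a := by
  rw [H4_a2 hπ hB hC a b c d, H4_a3 hπ hB hC c b a d, H4_a1 hπ hB hC c a b d,
    H4_a2 hπ hB hC c a d b,
    H4_a3 hπ hB hC d a c b, H4_a1 hπ hB hC d c a b, H4_a2 hπ hB hC d c b a,
    H4_a3 hπ hB hC b c d a]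
  simp only [neg_neg]

end Pool.Agent.W974.Aim
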