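import Pool.Agent.W974.Aim7

set_option autoImplicit false
set_option linter.unusedSectionVars false

namespace Pool.Agent.W974.Aim

open Lp

variable {Q P : Type} [Lp Q] [Lp P] [hAB : Fact (AB Q)] {π : Q → P}

variable (hπ : Ex π) (hB : AB P) (hC : C3 P)
include hπ hB hC

/-! ### Step A -/

lemma D_s (c x y w z : Q) : DD (TT c) (H4 x y w z) = DD (TT w) (H4 x y c z) :=
  DD_ee (hEE hπ hB hC) (TT_mem c) (TT_mem w) (nn_K x y z)

lemma D_a1 {g : Equiv.Perm Q} (hg : g ∈ Hs Q) (a b c d : Q) :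
    DD g (H4 a b c d) = - DD g (H4 a b d c) := by
  rw [H4_a1 hπ hB hC a b c d, DD_neg hg]
lemma D_a2 {g : Equiv.Perm Q} (hg : g ∈ Hs Q) (a b c d : Q) :
    DD g (H4 a b c d) = - DD g (H4 c b a d) := by
  rw [H4_a2 hπ hB hC a b c d, DD_neg hg]
lemma D_a3 {g : Equiv.Perm Q} (hg : g ∈ Hs Q) (a b c d : Q) :
    DD g (H4 a b c d) = - DD g (H4 a c b d) := by
  rw [H4_a3 hπ hB hC a b c d, DD_neg hg]

lemma D_neg (c x y w z : Q) : DD (TT c) (H4 x y w z) = - DD (TT c) (H4 x y w z) := by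
  conv_lhs => rw [D_a3 hπ hB hC (TT_mem c) x y w z, D_s hπ hB hC c x w y z,
    D_a3 hπ hB hC (TT_mem y) x w c z, D_s hπ hB hC y x c w z,
    D_a3 hπ hB hC (TT_mem w) x c y z, D_s hπ hB hC w x y c z]
  simp

lemma D_two (c x y w z : Q) : DD (TT c) (H4 x y w z) + DD (TT c) (H4 x y w z) = 0 := by
  nth_rewrite 1 [D_neg hπ hB hC c x y w z]
  simp

lemma D_a1' (e a b c d : Q) : DD (TT e) (H4 a b c d) = DD (TT e) (H4 a b d c) := by
  rw [D_a1 hπ hB hC (TT_mem e), ← D_neg hπ hB hC]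
lemma D_a2' (e a b c d : Q) : DD (TT e) (H4 a b c d) = DD (TT e) (H4 c b a d) := by
  rw [D_a2 hπ hB hC (TT_mem e), ← D_neg hπ hB hC]
lemma D_a3' (e a b c d : Q) : DD (TT e) (H4 a b c d) = DD (TT e) (H4 a c b d) := by
  rw [D_a3 hπ hB hC (TT_mem e), ← D_neg hπ hB hC]

lemma stepA (c u v p q : Q) : DD (TT c) (H4 v p u q) = 0 ∧
    H4 (u * v) p c q = H4 u p c q + H4 v p c q := by
  have h := additive_defect (fun x y z => H4 x y c z) (fun w x y z => io (DD (TT c) (H4 x y w z)))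
    (fun x y z => H4_cyc hπ hB hC x y c z)
    (fun w x y z => by
      have := E7 hπ hB hC (TT_mem c) (fun x y z k hk => Ad_TT_nn hπ hB hC c x y z hk) w x y z
      change ee (TT c) (nn x y z) + ee (TT c) (nn w (x * y) z) + ee (TT c) (nn w x y) +
        io (DD (TT c) (H4 x y w z)) = ee (TT c) (nn w x (y * z)) + ee (TT c) (nn (w * x) y z)
      rw [this]; abel)
    (fun u v p q => by
      change ee (TT c) (nn (u * v) p q) = ee (TT c) (nn (v * u) p q) +
        io (DD (TT c) (H4 v p u q))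
      rw [← kk_eq u v, E9 hπ hB hC (TT_mem c) (fun x y z k hk => Ad_TT_nn hπ hB hC c x y z hk)
        (kk_K u v) (v * u) p q (by rw [hπ.kk]; exact mu_RR_kk hB hC _ _ _ _ _),
        H4_r hπ hB hC, D_a2 hπ hB hC (TT_mem c) u p v q, io_neg, sub_neg_eq_add])
    (fun u v p q => by
      change io (DD (TT c) (H4 v p u q)) = io (DD (TT c) (H4 u p v q))
      rw [D_a2' hπ hB hC])
    (fun u v p q => by
      change io (DD (TT c) (H4 v p u q)) = io (DD (TT c) (H4 p v u q))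
      rw [D_a2' hπ hB hC, D_a3' hπ hB hC, D_a2' hπ hB hC])
    (fun u v p q => by
      change io (DD (TT c) (H4 v p u q)) = io (DD (TT c) (H4 v q u p))
      rw [D_a1' hπ hB hC, D_a3' hπ hB hC, D_a1' hπ hB hC])
    (fun u v p q => by
      change io (DD (TT c) (H4 v p u q)) + io (DD (TT c) (H4 v p u q)) = 0
      rw [← io_add, D_two hπ hB hC, io_zero])
    u v p q
  exact ⟨io_inj h.1, h.2⟩

lemma ZTH4 (e a b c d : Q) : DD (TT e) (H4 a b c d) = 0 := (stepA hπ hB hC e c a b d).1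
lemma H4_add1 (u v b c d : Q) : H4 (u * v) b c d = H4 u b c d + H4 v b c d :=
  (stepA hπ hB hC c u v b d).2

lemma ZTH5 (c p q a b d : Q) : DD (TT c) (H5 p q a b d) = 0 := by
  have h1 := E9 hπ hB hC (TT_mem c) (fun x y z k hk => Ad_TT_nn hπ hB hC c x y z hk)
        (nn_K p q a) 1 b d (by rw [hπ.nn]; exact mu_RR_nn hB hC _ _ _ _ _ _)
  change H4 (nn p q a * 1) b c d = H4 1 b c d - _ at h1
  rw [H4_add1 hπ hB hC, ad_nn (fun t => H4 t b c d) (fun u v => H4_add1 hπ hB hC u v b c d),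
    zero_add, eq_comm, sub_eq_self, H5_r hπ hB hC, DD_neg (TT_mem c), io_neg, neg_eq_zero] at h1
  exact io_inj h1

lemma ZLH4 (p q a b c d : Q) : DD (LL p q) (H4 a b c d) = 0 := by
  unfold H4
  rw [DD_ee (hEE hπ hB hC) (LL_mem p q) (TT_mem c) (nn_K a b d)]
  exact ZTH5 hπ hB hC c p q a b d

lemma ZRH4 (p q a b c d : Q) : DD (RR p q) (H4 a b c d) = 0 := by
  unfold H4
  rw [DD_ee (hEE hπ hB hC) (RR_mem p q) (TT_mem c) (nn_K a b d), H5_r hπ hB hC, DD_neg (TT_mem _),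
    ZTH5 hπ hB hC, neg_zero]

lemma ZMH4 (p q a b c d : Q) : DD (MM p q) (H4 a b c d) = 0 := by
  unfold H4
  rw [DD_ee (hEE hπ hB hC) (MM_mem p q) (TT_mem c) (nn_K a b d), H5_m hπ hB hC, DD_neg (TT_mem _),
    ZTH5 hπ hB hC, neg_zero]

/-! ### Step B -/

lemma H5_add3 (p q u v b c : Q) : H5 p q (u * v) b c = H5 p q u b c + H5 p q v b c :=
  additive_of_cocycle (fun x y z => H5 p q x y z) (fun x y z => H5_cyc hπ hB hC p q x y z)
    (fun w x y z => by
      have := E7 hπ hB hC (LL_mem p q) (fun x y z k hk => Ad_LL_nn hπ hB hC p q x y z hk) w x y z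
      rw [ZLH4 hπ hB hC, io_zero, zero_add] at this
      change ee (LL p q) (nn x y z) + ee (LL p q) (nn w (x * y) z) + ee (LL p q) (nn w x y) =
        ee (LL p q) (nn w x (y * z)) + ee (LL p q) (nn (w * x) y z)
      rw [this]; abel)
    (fun u v r s => by
      change ee (LL p q) (nn (u * v) r s) = ee (LL p q) (nn (v * u) r s)
      rw [← kk_eq u v, E9 hπ hB hC (LL_mem p q) (fun x y z k hk => Ad_LL_nn hπ hB hC p q x y z hk)
        (kk_K u v) (v * u) r s (by rw [hπ.kk]; exact mu_RR_kk hB hC _ _ _ _ _),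
        H4_r hπ hB hC, ZLH4 hπ hB hC, io_zero, sub_zero]) u v b c

lemma ZLH5 (p q x y z b c : Q) : DD (LL p q) (H5 x y z b c) = 0 := by
  have h1 := E9 hπ hB hC (LL_mem p q) (fun x y z k hk => Ad_LL_nn hπ hB hC p q x y z hk)
        (nn_K x y z) 1 b c (by rw [hπ.nn]; exact mu_RR_nn hB hC _ _ _ _ _ _)
  change H5 p q (nn x y z * 1) b c = H5 p q 1 b c - _ at h1
  rw [H5_add3 hπ hB hC, ad_nn (fun t => H5 p q t b c) (fun u v => H5_add3 hπ hB hC p q u v b c),
    zero_add, eq_comm, sub_eq_self, H5_r hπ hB hC, DD_neg (LL_mem _ _), io_neg, neg_eq_zero] at h1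
  exact io_inj h1

lemma ZRH5 (p q a b c d e : Q) : DD (RR p q) (H5 a b c d e) = 0 := by
  unfold H5
  rw [DD_ee (hEE hπ hB hC) (RR_mem p q) (LL_mem a b) (nn_K c d e), H5_r hπ hB hC,
    DD_neg (LL_mem _ _), ZLH5 hπ hB hC, neg_zero]

lemma ZMH5 (p q a b c d e : Q) : DD (MM p q) (H5 a b c d e) = 0 := by
  unfold H5
  rw [DD_ee (hEE hπ hB hC) (MM_mem p q) (LL_mem a b) (nn_K c d e), H5_m hπ hB hC,
    DD_neg (LL_mem _ _), ZLH5 hπ hB hC, neg_zero]

end Pool.Agent.W974.Aim
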