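import Pool.Agent.W974.Aim8

set_option autoImplicit false
set_option linter.unusedSectionVars false

namespace Pool.Agent.W974.Aim

open Lp

section r2
variable {Q : Type} [Lp Q] [hAB : Fact (AB Q)]

lemma KK_sv (m : M2 Q) : KK Q (sv m) := (sv_spec m).2.1

lemma R2 {τ h : Equiv.Perm Q} (hτ : τ ∈ Hs Q) (hh : h ∈ Hs Q) {x : Q} {m : M2 Q}
    (hx : τ x = act2 m x) : τ (yy h x) = act (- DD h m) (yy h x) := by
  have Ky := yy_K (Hs_NG hh) x
  have hu : (L (yy h x) * h) x = x := by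
    rw [Equiv.Perm.mul_apply, L_app, yy_eq]
  have hv : ((L (sv m))⁻¹ * τ) x = x := by
    rw [Equiv.Perm.mul_apply, Li_eq, hx, (sv_spec m).2.2]
  have h1 := hAB.out x _ _ (mul_mem (L_mem (yy h x)) hh.1)
    (mul_mem (inv_mem (L_mem (sv m))) hτ.1) hu hv
  have h2 : ((L (yy h x) * h) * ((L (sv m))⁻¹ * τ)) 1 = (((L (sv m))⁻¹ * τ) * (L (yy h x) * h)) 1 := by
    rw [h1]
  have e1 : (L (sv m))⁻¹ 1 = sv (-m) := by
    rw [Li_eq, ← (sv_spec m).2.2]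
    change 1 = act2 m (act2 (-m) 1)
    rw [← act2_add]; simp
  simp only [Equiv.Perm.mul_apply, hh.2, hτ.2, L_app, o2, e1] at h2
  rw [DD_spec hh, mul_act, DD_neg hh] at h2
  have e3 : yy h x * sv (-m) = act2 (-m) (yy h x) := by
    change yy h x * act2 (-m) 1 = _
    rw [mul_act2 Ky, o2]
  rw [e3] at h2
  have h3 := Li_eq.mp h2.symm
  rw [← (sv_spec m).2.2, act2_act, ← act2_add, add_neg_cancel, act2_zero] at h3
  exact h3

end r2

variable {Q P : Type} [Lp Q] [Lp P] [hAB : Fact (AB Q)] {π : Q → P}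

variable (hπ : Ex π) (hB : AB P) (hC : C3 P)
include hπ hB hC

lemma rho_H4 (a b c d : Q) : rho hπ (H4 a b c d) = F4 (π a) (π b) (π c) (π d) := by
  unfold H4 F4
  rw [rho_ee hπ (hEE hπ hB hC) hC (TT_mem c) (TT_mem _) (Lf_TT hπ c) (nn_K a b d), hπ.nn]

lemma tau_aux {h : Equiv.Perm Q} (hh : h ∈ Hs Q) (hz : ∀ a b c d, DD h (H4 a b c d) = 0)
    (c x0 y0 x : Q) : Ad (TT c) (kk x0 y0) (yy h x) := by
  have hE := hEE hπ hB hC
  set g := TT c with hg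
  set n := kk x0 y0 with hn
  have hgm : g ∈ Hs Q := TT_mem c
  have Kn : KK Q n := kk_K x0 y0
  have Kgn : KK Q (g n) := KK_app (Hs_NG hgm) Kn
  have hτ : (L (g n))⁻¹ * g * L n * g⁻¹ ∈ Hs Q := by
    refine ⟨mul_mem (mul_mem (mul_mem (inv_mem (L_mem _)) hgm.1) (L_mem _)) (inv_mem hgm.1), ?_⟩
    have : g⁻¹ 1 = 1 := (inv_mem hgm : g⁻¹ ∈ Hs Q).2
    simp only [Equiv.Perm.mul_apply, this, L_app, o2]
    rw [Li_eq, o2]
  have key : ∀ q, ((L (g n))⁻¹ * g * L n * g⁻¹) (g q) = (L (g n))⁻¹ (g (n * q)) := fun q => by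
    simp only [Equiv.Perm.mul_apply, pinv', L_app]
  -- the value at `x`
  obtain ⟨m, hm, hm0⟩ : ∃ m : M2 Q, ((L (g n))⁻¹ * g * L n * g⁻¹) x = act2 m x ∧ DD h m = 0 := by
    obtain ⟨q, rfl⟩ : ∃ q, x = g q := ⟨g⁻¹ x, by rw [pinv]⟩
    set M : M2 Q := H4 x0 c y0 q + H4 x0 c y0 q + H4 x0 c y0 q with hM
    have h1 : π (g (n * q)) = π (act2 M (g n * g q)) := by
      have h2 := X1 hB hC (TT_mem (π c)) (kZ hB hC (π x0) (π y0)) (π q) _
        (mu_TT_kk hB hC (π c) (π q) (π x0) (π y0))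
      rw [hg, Lf_TT hπ c, hπ.mul, hn, hπ.kk, h2, ← rho_spec hπ M, hM, rho_add, rho_add,
        rho_H4 hπ hB hC, hπ.mul, Lf_TT hπ c, Lf_TT hπ c, hπ.kk]
    obtain ⟨z, hz'⟩ := (hπ.ker _ _).mp h1
    refine ⟨io z + M, ?_, ?_⟩
    · rw [key, Li_eq, mul_act2 Kgn, hz']; rfl
    · rw [DD_add hh, DD_io hh, hM, DD_add hh, DD_add hh, hz]; simp
  have h3 := R2 hτ hh hm
  rw [hm0, neg_zero, act_zero] at h3
  -- τ (g y) = g (τ y) = g y
  have h4 : ((L (g n))⁻¹ * g * L n * g⁻¹) (g (yy h x)) = g (yy h x) := by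
    have hc := Hs_comm hE hτ hgm
    have : (((L (g n))⁻¹ * g * L n * g⁻¹) * g) (yy h x) =
        (g * ((L (g n))⁻¹ * g * L n * g⁻¹)) (yy h x) := by rw [hc]
    rw [Equiv.Perm.mul_apply _ g, Equiv.Perm.mul_apply g, h3] at this
    exact this
  rw [key, Li_eq] at h4
  exact h4

lemma Ad_cong {g : Equiv.Perm Q} (hg : g ∈ Hs Q) {n k k' : Q} (h : Ad g n k') (e : π k = π k') :
    Ad g n k := by
  obtain ⟨m, rfl⟩ := (hπ.ker _ _).mp e
  unfold Ad at *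
  rw [mul_act, g_act hg.1, g_act hg.1, h, mul_act]

lemma Ad_TT_kk_nn (c x y a b d : Q) : Ad (TT c) (kk x y) (nn a b d) := by
  apply Ad_cong hπ hB hC (TT_mem c) (tau_aux hπ hB hC (RR_mem b d) (ZRH4 hπ hB hC b d) c x y a)
  rw [hπ.nn, X2 hB hC, Lf_yy hπ (Lf_RR hπ b d)]

lemma Ad_TT_kk_kk (c x y u v : Q) : Ad (TT c) (kk x y) (kk u v) := by
  apply Ad_cong hπ hB hC (TT_mem c) (tau_aux hπ hB hC (TT_mem v) (ZTH4 hπ hB hC v) c x y u)
  rw [hπ.kk, X5 hB hC, Lf_yy hπ (Lf_TT hπ v)]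

/-! ### Step C -/

lemma H3_s (c x a : Q) : H3 c x a = H3 a x c := by
  have h := ee_sym (hEE hπ hB hC) (TT_mem c) (TT_mem a) x
  rw [E5 hπ hB hC (TT_mem c), E5 hπ hB hC (TT_mem a)] at h
  exact h

lemma H3_a (c x a : Q) : H3 c x a = - H3 c a x :=
  E6 hπ hB hC (TT_mem c) x a (Ad_TT_kk_kk hπ hB hC c x a a x)

lemma H3_neg (c x a : Q) : H3 c x a = - H3 c x a := by
  conv_lhs => rw [H3_a hπ hB hC c x a, H3_s hπ hB hC c a x, H3_a hπ hB hC x a c,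
    H3_s hπ hB hC x c a, H3_a hπ hB hC a c x, H3_s hπ hB hC a x c]
  simp

lemma H3_two (c x a : Q) : H3 c x a + H3 c x a = 0 := by
  nth_rewrite 1 [H3_neg hπ hB hC c x a]
  simp

/-- hexagon. -/
lemma E8 (c x a b : Q) :
    H4 a x c b + H3 c x (a * b) = io (DD (TT c) (H3 a x b)) +
      (H4 x a c b + (H4 a b c x + (H3 c x a + H3 c x b))) := by
  have hE := hEE hπ hB hC
  have hg := TT_mem c
  have K0 := kk_K x (a * b)
  have K1 := nn_K x a b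
  have Ka := kk_K x a
  have K2 := nn_K a x b
  have Kb := kk_K x b
  have K3 := nn_K a b x
  have KR := KK_mul K1 (KK_mul K3 (KK_mul Ka Kb))
  have h1 : π (nn a x b * kk x (a * b)) =
      π (act2 (ee (WW a (b * x)) (kk x b)) (nn x a b * (nn a b x * (kk x a * kk x b)))) := by
    rw [← mul_act2 K1, ← mul_act2 K3, ← mul_act2 Ka, ← ee_spec hE (WW_mem _ _) Kb]
    simp only [hπ.mul, hπ.nn, hπ.kk]
    rw [Lf_WW hπ]
    simp only [hπ.mul, hπ.kk]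
    exact X8 hB hC _ _ _
  have h2 := ee_cong hπ hB hC hg (KK_act2 KR _) h1
  rw [ee_mul hE hg K2 K0 (Ad_TT_nn hπ hB hC _ _ _ _ K0), ee_act2 hE hg KR,
    ee_mul hE hg K1 (KK_mul K3 (KK_mul Ka Kb))
      (Ad_TT_nn hπ hB hC _ _ _ _ (KK_mul K3 (KK_mul Ka Kb))),
    ee_mul hE hg K3 (KK_mul Ka Kb) (Ad_TT_nn hπ hB hC _ _ _ _ (KK_mul Ka Kb)),
    ee_mul hE hg Ka Kb (Ad_TT_kk_kk hπ hB hC _ _ _ _ _)] at h2
  have h3 : DD (TT c) (ee (WW a (b * x)) (kk x b)) = DD (TT c) (H3 a x b) := by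
    apply rho_DD hπ hg
    unfold H3
    rw [rho_ee hπ hE hC (WW_mem _ _) (WW_mem _ _) (Lf_WW hπ _ _) Kb,
      rho_ee hπ hE hC (TT_mem _) (TT_mem _) (Lf_TT hπ _) Kb]
    simp only [hπ.kk, hπ.mul]
    exact X8a hB hC _ _ _
  rw [h3] at h2
  exact h2

lemma E8' (c x a b : Q) : H3 c x (a * b) = io (DD (TT c) (H3 a x b)) +
    (H4 x a c b + H4 x a c b + H4 x a c b) + H3 c x a + H3 c x b := by
  have h := E8 hπ hB hC c x a b
  have h1 : H4 a x c b = - H4 x a c b := by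
    rw [H4_a2 hπ hB hC a x c b, H4_a3 hπ hB hC c x a b, H4_a2 hπ hB hC c a x b]; simp
  have h2 : H4 a b c x = H4 x a c b := by
    rw [H4_cyc hπ hB hC x a c b]
  rw [h1, h2, neg_add_eq_iff_eq_add] at h
  rw [h]; abel

lemma H4_six (c x a b : Q) : H4 x a c b + H4 x a c b + H4 x a c b +
    (H4 x a c b + H4 x a c b + H4 x a c b) = 0 := by
  have h1 := E8' hπ hB hC c x a b
  have h2 := H3_two hπ hB hC c x (a * b)
  have h3 := H3_two hπ hB hC c x a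
  have h4 := H3_two hπ hB hC c x b
  have h5 : io (DD (TT c) (H3 a x b)) + io (DD (TT c) (H3 a x b)) = (0 : M2 Q) := by
    rw [← io_add, ← DD_add (TT_mem c), H3_two hπ hB hC, DD_zero (TT_mem c), io_zero]
  rw [h1] at h2
  have : (io (DD (TT c) (H3 a x b)) + io (DD (TT c) (H3 a x b))) +
      (H4 x a c b + H4 x a c b + H4 x a c b + (H4 x a c b + H4 x a c b + H4 x a c b)) +
      (H3 c x a + H3 c x a) + (H3 c x b + H3 c x b) = 0 := by
    rw [← h2]; abel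
  rw [h5, h3, h4] at this
  simpa using this

/-- `K`-dependence for `H3`. -/
lemma E10 (c x u v a : Q) :
    H3 c (kk u v * a) x = H3 c a x - io (DD (TT c) (H3 x u v)) := by
  have hE := hEE hπ hB hC
  have hg := TT_mem c
  have hk := kk_K u v
  have K1 := kk_K a x
  have K2 := kk_K (kk u v * a) x
  have Kg := GG_mem (TT_mem x).1 a
  have h1 : π (act2 (ee (GG (TT x) a) (kk u v)) (kk (kk u v * a) x * kk u v)) =
      π (kk a x * kk u v) := by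
    have e1 : π (kk (kk u v * a) x) = yy (TT (π x)) (π (kk u v) * π a) := by
      rw [hπ.kk, X5 hB hC, hπ.mul]
    have e2 : π (kk a x) = yy (TT (π x)) (π a) := by rw [hπ.kk, X5 hB hC]
    rw [← mul_act2 K2, ← ee_spec hE Kg hk, hπ.mul, hπ.mul, Lf_GG hπ (Lf_TT hπ x), e1, e2,
      X9 hB hC (TT_mem _) (hπ.KK hk)]
    exact Kcomm hB hC (hπ.KK hk) (yy_K (Hs_NG (TT_mem _)) _)
  have h2 := ee_cong hπ hB hC hg (KK_mul K1 hk) h1
  rw [ee_act2 hE hg (KK_mul K2 hk), ee_mul hE hg K2 hk (Ad_TT_kk_kk hπ hB hC _ _ _ _ _),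
    ee_mul hE hg K1 hk (Ad_TT_kk_kk hπ hB hC _ _ _ _ _)] at h2
  have h3 : DD (TT c) (ee (GG (TT x) a) (kk u v)) = DD (TT c) (H3 x u v) := by
    have h4 : DD (TT c) (ee (GG (TT x) a) (kk u v)) = DD (TT c) (H3 x u v +
        (H4 u x v a + H4 u x v a + H4 u x v a)) := by
      apply rho_DD hπ hg
      rw [rho_ee hπ hE hC Kg (GG_mem (TT_mem _).1 _) (Lf_GG hπ (Lf_TT hπ x) a) hk, rho_add,
        rho_add, rho_add, rho_H4 hπ hB hC, hπ.kk, mu_TT_kk hB hC]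
      unfold H3
      rw [rho_ee hπ hE hC (TT_mem x) (TT_mem _) (Lf_TT hπ x) hk, hπ.kk]
    rw [h4, DD_add hg, DD_add hg, DD_add hg, ZTH4 hπ hB hC]
    simp
  rw [h3] at h2
  change _ = H3 c a x + _ at h2
  rw [eq_sub_iff_add_eq, add_comm]
  rw [← add_assoc] at h2
  exact add_right_cancel h2

lemma ZTH3 (c x u v : Q) : DD (TT c) (H3 x u v) = 0 := by
  have h1 := E10 hπ hB hC c x u v (v * u)
  rw [kk_eq, H3_a hπ hB hC c (u * v) x, H3_a hπ hB hC c (v * u) x, E8' hπ hB hC c x u v,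
    E8' hπ hB hC c x v u, H3_s hπ hB hC v x u] at h1
  have h2 : H4 x v c u = - H4 x u c v := by
    rw [H4_a1 hπ hB hC x v c u, H4_a3 hπ hB hC x v u c, H4_a1 hπ hB hC x u v c]; simp
  have h6 := H4_six hπ hB hC c x u v
  rw [h2] at h1
  apply io_inj
  rw [io_zero]
  have h3 : io (DD (TT c) (H3 x u v)) =
      H4 x u c v + H4 x u c v + H4 x u c v + (H4 x u c v + H4 x u c v + H4 x u c v) := by
    have h4 : io (DD (TT c) (H3 x u v)) = -(io (DD (TT c) (H3 u x v)) +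
      (-H4 x u c v + -H4 x u c v + -H4 x u c v) + H3 c x v + H3 c x u) -
      -(io (DD (TT c) (H3 u x v)) + (H4 x u c v + H4 x u c v + H4 x u c v) + H3 c x u + H3 c x v) := by
      rw [h1]; abel
    rw [h4]; abel
  rw [h3, h6]

end Pool.Agent.W974.Aim
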